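import Pool.Agent.V1149.GB.Kos

/-!
# The Betti number `b_{n-1,n}` of a graph curve
-/

namespace Pool.Agent.V1149.GB

open MvPolynomial

set_option linter.unusedSectionVars false

section Three

variable {V : Type*} {k : Type*} [Field k] {N : ℕ}

theorem hat_kos_two (I : Ideal (MvPolynomial (Fin N) k))
    (g : Finset (Fin N) → MvPolynomial (Fin N) k ⧸ I) {a b : Fin N} (hab : a < b) :
    hat (kos I g) {a, b} = Ideal.Quotient.mk I (X a) * hat g {b} -
      Ideal.Quotient.mk I (X b) * hat g {a} := by
  rw [hat_kos, Finset.sum_pair hab.ne]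
  have f1 : ({a, b} : Finset (Fin N)).filter (· < a) = ∅ := by
    ext x
    simp only [Finset.mem_filter, Finset.mem_insert, Finset.mem_singleton, Finset.notMem_empty,
      iff_false]
    rintro ⟨rfl | rfl, h⟩
    · exact lt_irrefl _ h
    · exact lt_asymm h hab
  have f2 : ({a, b} : Finset (Fin N)).filter (· < b) = {a} := by
    ext x
    simp only [Finset.mem_filter, Finset.mem_insert, Finset.mem_singleton]
    constructor
    · rintro ⟨rfl | rfl, h⟩
      · rfl
      · exact absurd h (lt_irrefl _)
    · rintro rfl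
      exact ⟨Or.inl rfl, hab⟩
  have e1 : ({a, b} : Finset (Fin N)).erase a = {b} := by
    ext x
    simp only [Finset.mem_erase, Finset.mem_insert, Finset.mem_singleton]
    constructor
    · rintro ⟨h1, rfl | rfl⟩
      · exact absurd rfl h1
      · rfl
    · rintro rfl
      exact ⟨hab.ne', Or.inr rfl⟩
  have e2 : ({a, b} : Finset (Fin N)).erase b = {a} := by
    ext x
    simp only [Finset.mem_erase, Finset.mem_insert, Finset.mem_singleton]
    constructor
    · rintro ⟨h1, rfl | rfl⟩
      · rfl
      · exact absurd rfl h1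
    · rintro rfl
      exact ⟨hab.ne, Or.inl rfl⟩
  rw [f1, f2, e1, e2, Finset.card_empty, Finset.card_singleton]
  ring

theorem hat_kos_three (I : Ideal (MvPolynomial (Fin N) k))
    (g : Finset (Fin N) → MvPolynomial (Fin N) k ⧸ I) {a b c : Fin N} (hab : a < b) (hbc : b < c) :
    hat (kos I g) {a, b, c} = Ideal.Quotient.mk I (X a) * hat g {b, c} -
      Ideal.Quotient.mk I (X b) * hat g {a, c} + Ideal.Quotient.mk I (X c) * hat g {a, b} := by
  have hac := hab.trans hbc
  rw [hat_kos, Finset.sum_insert (by simp [hab.ne, hac.ne]), Finset.sum_pair hbc.ne]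
  have f1 : ({a, b, c} : Finset (Fin N)).filter (· < a) = ∅ := by
    ext x
    simp only [Finset.mem_filter, Finset.mem_insert, Finset.mem_singleton, Finset.notMem_empty,
      iff_false]
    rintro ⟨rfl | rfl | rfl, h⟩
    · exact lt_irrefl _ h
    · exact lt_asymm h hab
    · exact lt_asymm h hac
  have f2 : ({a, b, c} : Finset (Fin N)).filter (· < b) = {a} := by
    ext x
    simp only [Finset.mem_filter, Finset.mem_insert, Finset.mem_singleton]
    constructor
    · rintro ⟨rfl | rfl | rfl, h⟩
      · rfl
      · exact absurd h (lt_irrefl _)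
      · exact absurd h (lt_asymm hbc)
    · rintro rfl
      exact ⟨Or.inl rfl, hab⟩
  have f3 : ({a, b, c} : Finset (Fin N)).filter (· < c) = {a, b} := by
    ext x
    simp only [Finset.mem_filter, Finset.mem_insert, Finset.mem_singleton]
    constructor
    · rintro ⟨rfl | rfl | rfl, h⟩
      · exact Or.inl rfl
      · exact Or.inr rfl
      · exact absurd h (lt_irrefl _)
    · rintro (rfl | rfl)
      · exact ⟨Or.inl rfl, hac⟩
      · exact ⟨Or.inr (Or.inl rfl), hbc⟩
  have e1 : ({a, b, c} : Finset (Fin N)).erase a = {b, c} := by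
    ext x
    simp only [Finset.mem_erase, Finset.mem_insert, Finset.mem_singleton]
    constructor
    · rintro ⟨h1, rfl | rfl | rfl⟩
      · exact absurd rfl h1
      · exact Or.inl rfl
      · exact Or.inr rfl
    · rintro (rfl | rfl)
      · exact ⟨hab.ne', Or.inr (Or.inl rfl)⟩
      · exact ⟨hac.ne', Or.inr (Or.inr rfl)⟩
  have e2 : ({a, b, c} : Finset (Fin N)).erase b = {a, c} := by
    ext x
    simp only [Finset.mem_erase, Finset.mem_insert, Finset.mem_singleton]
    constructor
    · rintro ⟨h1, rfl | rfl | rfl⟩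
      · exact Or.inl rfl
      · exact absurd rfl h1
      · exact Or.inr rfl
    · rintro (rfl | rfl)
      · exact ⟨hab.ne, Or.inl rfl⟩
      · exact ⟨hbc.ne', Or.inr (Or.inr rfl)⟩
  have e3 : ({a, b, c} : Finset (Fin N)).erase c = {a, b} := by
    ext x
    simp only [Finset.mem_erase, Finset.mem_insert, Finset.mem_singleton]
    constructor
    · rintro ⟨h1, rfl | rfl | rfl⟩
      · exact Or.inl rfl
      · exact Or.inr rfl
      · exact absurd rfl h1
    · rintro (rfl | rfl)
      · exact ⟨hac.ne, Or.inl rfl⟩
      · exact ⟨hbc.ne, Or.inr (Or.inl rfl)⟩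
  rw [f1, f2, f3, e1, e2, e3, Finset.card_empty, Finset.card_singleton, Finset.card_pair hab.ne]
  ring

/-- values of the reindexed function on pairs -/
noncomputable def F2v (I : Ideal (MvPolynomial (Fin N) k))
    (f : Finset (Fin N) → MvPolynomial (Fin N) k ⧸ I) (y : Fin N → k) (a b : Fin N) : k :=
  evR I y (hat f {a, b})

/-- the alternating form -/
noncomputable def zt (I : Ideal (MvPolynomial (Fin N) k))
    (f : Finset (Fin N) → MvPolynomial (Fin N) k ⧸ I) (y : Fin N → k) (a b : Fin N) : k :=
  if a < b then F2v I f y a b else if b < a then - F2v I f y a b else 0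

theorem F2v_comm (I : Ideal (MvPolynomial (Fin N) k))
    (f : Finset (Fin N) → MvPolynomial (Fin N) k ⧸ I) (y : Fin N → k) (a b : Fin N) :
    F2v I f y a b = F2v I f y b a := by
  rw [F2v, F2v, Finset.pair_comm]

theorem hat_add {I : Ideal (MvPolynomial (Fin N) k)}
    (f g : Finset (Fin N) → MvPolynomial (Fin N) k ⧸ I) (S : Finset (Fin N)) :
    hat (f + g) S = hat f S + hat g S := by
  simp only [hat, Pi.add_apply, mul_add]

theorem hat_smul {I : Ideal (MvPolynomial (Fin N) k)} (c : k)
    (f : Finset (Fin N) → MvPolynomial (Fin N) k ⧸ I) (S : Finset (Fin N)) :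
    hat (c • f) S = c • hat f S := by
  simp only [hat, Pi.smul_apply, mul_smul_comm]

theorem zt_add (I : Ideal (MvPolynomial (Fin N) k))
    (f g : Finset (Fin N) → MvPolynomial (Fin N) k ⧸ I) (y : Fin N → k) (a b : Fin N) :
    zt I (f + g) y a b = zt I f y a b + zt I g y a b := by
  simp only [zt, F2v, hat_add, map_add]
  split_ifs
  · rfl
  · ring
  · ring

theorem zt_smul (I : Ideal (MvPolynomial (Fin N) k)) (c : k)
    (f : Finset (Fin N) → MvPolynomial (Fin N) k ⧸ I) (y : Fin N → k) (a b : Fin N) :
    zt I (c • f) y a b = c * zt I f y a b := by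
  simp only [zt, F2v, hat_smul, map_smul, smul_eq_mul]
  split_ifs
  · rfl
  · ring
  · ring

theorem D_zero {U : V → Submodule k (Fin N → k)}
    {f : Finset (Fin N) → MvPolynomial (Fin N) k ⧸ vanIdeal U}
    (hf : kos (vanIdeal U) f = 0) {v : V} {y : Fin N → k} (hy : y ∈ U v) (a b c : Fin N) :
    y a * zt (vanIdeal U) f y b c - y b * zt (vanIdeal U) f y a c +
      y c * zt (vanIdeal U) f y a b = 0 := by
  have E3 : ∀ a b c, a < b → b < c → y a * F2v (vanIdeal U) f y b c -
      y b * F2v (vanIdeal U) f y a c + y c * F2v (vanIdeal U) f y a b = 0 := by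
    intro a b c hab hbc
    have h := hat_kos_three (vanIdeal U) f hab hbc
    rw [hf] at h
    have h0 : hat (0 : Finset (Fin N) → MvPolynomial (Fin N) k ⧸ vanIdeal U) {a, b, c} = 0 := by
      simp [hat]
    rw [h0] at h
    have h1 := congrArg (evR (vanIdeal U) y) h
    rw [map_zero, map_add, map_sub, evR_mul hy, evR_mul hy, evR_mul hy, eval_X, eval_X,
      eval_X] at h1
    exact h1.symm
  unfold zt
  rcases lt_trichotomy a b with h1 | h1 | h1
  · rcases lt_trichotomy b c with h2 | h2 | h2
    · have h3 := h1.trans h2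
      rw [if_pos h1, if_pos h2, if_pos h3]
      exact E3 a b c h1 h2
    · subst h2
      simp [h1]
    · rcases lt_trichotomy a c with h3 | h3 | h3
      · have e := E3 a c b h3 h2
        rw [if_neg h2.not_gt, if_pos h2, if_pos h3, if_pos h1, F2v_comm _ _ _ b c]
        linear_combination - e
      · subst h3
        simp only [h1, h1.not_gt, if_true, if_false, lt_irrefl]
        rw [F2v_comm _ _ _ b a]
        ring
      · have e := E3 c a b h3 h1
        rw [if_neg h2.not_gt, if_pos h2, if_neg h3.not_gt, if_pos h3, if_pos h1,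
          F2v_comm _ _ _ b c, F2v_comm _ _ _ a c]
        linear_combination e
  · subst h1
    simp
  · rcases lt_trichotomy b c with h2 | h2 | h2
    · rcases lt_trichotomy a c with h3 | h3 | h3
      · have e := E3 b a c h1 h3
        rw [if_pos h2, if_pos h3, if_neg h1.not_gt, if_pos h1, F2v_comm _ _ _ a b]
        linear_combination - e
      · subst h3
        simp only [h1, h1.not_gt, if_true, if_false, lt_irrefl]
        rw [F2v_comm _ _ _ b a]
        ring
      · have e := E3 b c a h2 h3
        rw [if_pos h2, if_neg h3.not_gt, if_pos h3, if_neg h1.not_gt, if_pos h1,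
          F2v_comm _ _ _ a b, F2v_comm _ _ _ a c]
        linear_combination e
    · subst h2
      simp [h1.not_gt, h1]
    · have h3 := h2.trans h1
      have e := E3 c b a h2 h1
      rw [if_neg h2.not_gt, if_pos h2, if_neg h3.not_gt, if_pos h3, if_neg h1.not_gt, if_pos h1,
        F2v_comm _ _ _ b c, F2v_comm _ _ _ a c, F2v_comm _ _ _ a b]
      linear_combination - e

end Three

end Pool.Agent.V1149.GB
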