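import Pool.Agent.V1149.GB.Fin

/-!
# The Betti number `b_{n-1,n}` of a graph curve is the number of bridges: the map to the bridges
-/

namespace Pool.Agent.V1149.GB

open MvPolynomial Relation

set_option linter.unusedSectionVars false

open scoped Classical

section Main

variable {V : Type*} [Fintype V] [DecidableEq V] {k : Type*} [Field k] {n : ℕ}
  {G : SimpleGraph V} {U : V → Submodule k (Fin (n + 1) → k)}

/-- the bridges -/
abbrev Br (G : SimpleGraph V) : Type _ :=
  {e : Sym2 V // e ∈ G.edgeSet ∧ ¬ (G.deleteEdges {e}).Connected}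

/-- the choices of reduced bases -/
structure Bases (U : V → Submodule k (Fin (n + 1) → k)) where
  i : V → Fin (n + 1)
  j : V → Fin (n + 1)
  P : V → Fin (n + 1) → k
  Q : V → Fin (n + 1) → k
  spec : ∀ v, RB (U v) (i v) (j v) (P v) (Q v)

theorem exists_bases (hU : IsGraphCurve G U) : Nonempty (Bases U) := by
  choose i j P Q h using fun v => exists_RB (U v) (hU.line v)
  exact ⟨⟨i, j, P, Q, h⟩⟩

/-- the vector at a vertex -/
noncomputable def wf (B : Bases U)
    (f : Finset (Fin (n + 1)) → MvPolynomial (Fin (n + 1)) k ⧸ vanIdeal U) (v : V) :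
    Fin (n + 1) → k := wv (zt (vanIdeal U) f) (B.i v) (B.j v) (B.P v) (B.Q v)

theorem wf_add (B : Bases U)
    (f g : Finset (Fin (n + 1)) → MvPolynomial (Fin (n + 1)) k ⧸ vanIdeal U) (v : V)
    (b : Fin (n + 1)) : wf B (f + g) v b = wf B f v b + wf B g v b := by
  simp only [wf, wv, zt_add]
  ring

theorem wf_smul (B : Bases U) (c : k)
    (f : Finset (Fin (n + 1)) → MvPolynomial (Fin (n + 1)) k ⧸ vanIdeal U) (v : V)
    (b : Fin (n + 1)) : wf B (c • f) v b = c * wf B f v b := by
  simp only [wf, wv, zt_smul]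
  ring

theorem wf_spec (B : Bases U) (hn : 1 ≤ n)
    {f : Finset (Fin (n + 1)) → MvPolynomial (Fin (n + 1)) k ⧸ vanIdeal U}
    (hf : f ∈ cyc (vanIdeal U) (n - 1) n) (v : V) :
    ∀ y ∈ U v, ∀ a b, zt (vanIdeal U) f y a b = y a * wf B f v b - y b * wf B f v a := by
  have hk : kos (vanIdeal U) f = 0 := hf.2
  refine wv_spec (B.spec v) _ ?_ ?_ ?_
  · intro y hy y' hy' a b
    unfold zt F2v
    rcases lt_trichotomy a b with h | h | h
    · rw [if_pos h, if_pos h, if_pos h]
      exact evR_add (hat_grade hn hf.1 _ (Finset.card_pair h.ne)) hy hy'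
    · subst h
      simp
    · rw [if_neg h.not_gt, if_pos h, if_neg h.not_gt, if_pos h, if_neg h.not_gt, if_pos h]
      rw [evR_add (hat_grade hn hf.1 _ (Finset.card_pair h.ne')) hy hy']
      ring
  · intro c y hy a b
    unfold zt F2v
    rcases lt_trichotomy a b with h | h | h
    · rw [if_pos h, if_pos h]
      exact evR_smul (hat_grade hn hf.1 _ (Finset.card_pair h.ne)) c hy
    · subst h
      simp
    · rw [if_neg h.not_gt, if_pos h, if_neg h.not_gt, if_pos h]
      rw [evR_smul (hat_grade hn hf.1 _ (Finset.card_pair h.ne')) c hy]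
      ring
  · intro y hy a b c
    exact D_zero hk hy a b c

theorem wf_unique (B : Bases U)
    {f : Finset (Fin (n + 1)) → MvPolynomial (Fin (n + 1)) k ⧸ vanIdeal U}
    {v : V} {w : Fin (n + 1) → k} (hn : 1 ≤ n) (hf : f ∈ cyc (vanIdeal U) (n - 1) n)
    (h : ∀ y ∈ U v, ∀ a b, zt (vanIdeal U) f y a b = y a * w b - y b * w a) : wf B f v = w := by
  refine wv_unique (B.spec v) _ _ ?_
  intro y hy a b
  rw [← h y hy, ← wf_spec B hn hf v y hy]

theorem wf_edge (_hU : IsGraphCurve G U) (B : Bases U) (hn : 1 ≤ n)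
    {f : Finset (Fin (n + 1)) → MvPolynomial (Fin (n + 1)) k ⧸ vanIdeal U}
    (hf : f ∈ cyc (vanIdeal U) (n - 1) n) {u v : V} {i : Fin (n + 1)} (hi : pt U u v i ≠ 0) :
    wf B f u - wf B f v = ((wf B f u i - wf B f v i) / pt U u v i) • pt U u v := by
  refine par (δ := wf B f u - wf B f v) ?_ hi
  intro a b
  have h1 := wf_spec B hn hf u _ (pt_mem u v) a b
  have h2 := wf_spec B hn hf v _ (pt_mem' u v) a b
  rw [h1] at h2
  simp only [Pi.sub_apply]
  linear_combination h2

theorem exists_idx (hU : IsGraphCurve G U) {u v : V} (h : G.Adj u v) : ∃ i, pt U u v i ≠ 0 := by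
  obtain ⟨i, hi⟩ := Function.ne_iff.1 (pt_ne hU h)
  exact ⟨i, hi⟩

/-- a coordinate that is not zero at the point on the edge -/
noncomputable def idx (U : V → Submodule k (Fin (n + 1) → k)) (e : Sym2 V) : Fin (n + 1) :=
  if h : ∃ i, pt U (ends e).1 (ends e).2 i ≠ 0 then h.choose else 0

theorem ends_adj {e : Sym2 V} (he : e ∈ G.edgeSet) : G.Adj (ends e).1 (ends e).2 := by
  have := ends_spec e
  rw [← this] at he
  exact he

theorem idx_spec (hU : IsGraphCurve G U) {e : Sym2 V} (he : e ∈ G.edgeSet) :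
    pt U (ends e).1 (ends e).2 (idx U e) ≠ 0 := by
  have h := exists_idx hU (ends_adj he)
  rw [idx, dif_pos h]
  exact h.choose_spec

/-- the coefficients at the bridges -/
noncomputable def Psi (G : SimpleGraph V) (B : Bases U) :
    (Finset (Fin (n + 1)) → MvPolynomial (Fin (n + 1)) k ⧸ vanIdeal U) →ₗ[k] (Br G → k) where
  toFun f e := (wf B f (ends e.1).1 (idx U e.1) - wf B f (ends e.1).2 (idx U e.1)) /
    pt U (ends e.1).1 (ends e.1).2 (idx U e.1)
  map_add' f g := by
    funext e
    simp only [wf_add, Pi.add_apply]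
    ring
  map_smul' c f := by
    funext e
    simp only [wf_smul, Pi.smul_apply, RingHom.id_apply, smul_eq_mul]
    ring

/-- the vectors agree at all vertices when all the coefficients at the bridges vanish -/
theorem wf_const [CharZero k] (hG : G.Connected) (hdeg : ∀ v, Nat.card (G.neighborSet v) ≤ 3)
    (hsub : SubgraphCond G) (hU : IsGraphCurve G U) (hn : 1 ≤ n)
    (hN : n + 1 + Nat.card G.edgeSet = 2 * Fintype.card V) (B : Bases U)
    {f : Finset (Fin (n + 1)) → MvPolynomial (Fin (n + 1)) k ⧸ vanIdeal U}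
    (hf : f ∈ cyc (vanIdeal U) (n - 1) n) (h0 : Psi G B f = 0) (u v : V) :
    wf B f u = wf B f v := by
  obtain ⟨z, hz⟩ := exists_def hG hsub
  have hPK := PK_univ hU (conn_univ hG) (degK_le hdeg Finset.univ) hz hN
  have hw : ∀ a b, inK G Finset.univ a b → ∃ t : k, wf B f a - wf B f b = t • pt U a b := by
    intro a b hab
    obtain ⟨i, hi⟩ := exists_idx hU hab.2.2
    exact ⟨_, wf_edge hU B hn hf hi⟩
  have hadj : ∀ a b, G.Adj a b → wf B f a = wf B f b := by
    intro a b hab
    by_cases hbr : (G.deleteEdges {s(a, b)}).Connected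
    · exact main_core (conf hU) (degK_le hdeg) (A3 hsub) _ Finset.univ le_rfl (conn_univ hG) hPK
        (wf B f) hw a b ⟨Finset.mem_univ _, Finset.mem_univ _, hab⟩
        ((rtg_iff _ a b a b rfl).2 (hbr.preconnected a b))
    · have he : s(a, b) ∈ G.edgeSet := hab
      have h1 := congrFun h0 ⟨s(a, b), he, hbr⟩
      have h2 := idx_spec hU he
      have h3 := wf_edge hU B hn hf h2
      have h4 : (wf B f (ends s(a, b)).1 (idx U s(a, b)) -
        wf B f (ends s(a, b)).2 (idx U s(a, b))) /
          pt U (ends s(a, b)).1 (ends s(a, b)).2 (idx U s(a, b)) = 0 := h1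
      rw [h4, zero_smul, sub_eq_zero] at h3
      rcases ends_or a b with h | h
      · rw [h] at h3
        exact h3
      · rw [h] at h3
        exact h3.symm
  have h1 := (SimpleGraph.reachable_iff_reflTransGen u v).1 (hG.preconnected u v)
  induction h1 with
  | refl => rfl
  | tail _ hbc ih => exact ih.trans (hadj _ _ hbc)

theorem mem_gradeZ {I : Ideal (MvPolynomial (Fin (n + 1)) k)}
    {r : MvPolynomial (Fin (n + 1)) k ⧸ I} (h : r ∈ grade I 0) :
    ∃ c : k, r = Ideal.Quotient.mk I (C c) := by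
  obtain ⟨F, hF, rfl⟩ := mem_grade'.1 h
  rw [← totalDegree_zero_iff_isHomogeneous] at hF
  exact ⟨_, congrArg _ (totalDegree_eq_zero_iff_eq_C.1 hF)⟩

theorem mk_C_grade {I : Ideal (MvPolynomial (Fin (n + 1)) k)} (c : k) :
    Ideal.Quotient.mk I (C c) ∈ grade I 0 :=
  mem_grade'.2 ⟨C c, isHomogeneous_C _ _, rfl⟩

theorem negone_mk {I : Ideal (MvPolynomial (Fin (n + 1)) k)} (m : ℕ)
    (F : MvPolynomial (Fin (n + 1)) k) :
    (-1) ^ m * Ideal.Quotient.mk I F = Ideal.Quotient.mk I ((-1) ^ m * F) := by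
  rw [map_mul, map_pow, map_neg, map_one]

/-- boundaries are in the kernel -/
theorem bdr_ker (B : Bases U) (hn : 1 ≤ n)
    {f : Finset (Fin (n + 1)) → MvPolynomial (Fin (n + 1)) k ⧸ vanIdeal U}
    (hf : f ∈ cyc (vanIdeal U) (n - 1) n) (hb : f ∈ bdr (vanIdeal U) (n - 1) n) :
    Psi G B f = 0 := by
  obtain ⟨g, hg, rfl⟩ := hb
  rw [Nat.sub_add_cancel hn] at hg
  have h1 : ∀ b : Fin (n + 1), ∃ c : k, hat g {b} = Ideal.Quotient.mk _ (C c) := by
    intro b
    have h2 := mem_kosP.1 hg ({b}ᶜ)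
    rw [if_pos ⟨by rw [Finset.card_compl, Fintype.card_fin, Finset.card_singleton]; omega,
      le_rfl⟩, Nat.sub_self] at h2
    obtain ⟨c, hc⟩ := mem_gradeZ h2
    refine ⟨(-1) ^ (∑ s ∈ ({b} : Finset (Fin (n + 1))), s.val) * c, ?_⟩
    rw [hat, hc, negone_mk]
    simp
  choose γ hγ using h1
  have h2 : ∀ v, wf B (kos (vanIdeal U) g) v = γ := by
    intro v
    refine wf_unique B hn hf ?_
    intro y hy a b
    refine zt_of_pairs _ _ _ ?_ a b
    intro a b hab
    rw [hat_kos_two _ _ hab, map_sub, evR_mul hy, evR_mul hy, hγ, hγ, evR_mk hy, evR_mk hy]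
    simp only [eval_X, eval_C]
  funext e
  simp [Psi, h2]

/-- cycles in the kernel are boundaries -/
theorem ker_bdr [CharZero k] (hG : G.Connected) (hdeg : ∀ v, Nat.card (G.neighborSet v) ≤ 3)
    (hsub : SubgraphCond G) (hU : IsGraphCurve G U) (hn : 1 ≤ n)
    (hN : n + 1 + Nat.card G.edgeSet = 2 * Fintype.card V) (B : Bases U)
    {f : Finset (Fin (n + 1)) → MvPolynomial (Fin (n + 1)) k ⧸ vanIdeal U}
    (hf : f ∈ cyc (vanIdeal U) (n - 1) n) (h0 : Psi G B f = 0) :
    f ∈ bdr (vanIdeal U) (n - 1) n := by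
  obtain ⟨v0⟩ := hG.nonempty
  set w0 := wf B f v0 with hw0
  have hc : ∀ v, wf B f v = w0 := fun v => wf_const hG hdeg hsub hU hn hN B hf h0 v v0
  rw [bdr, Nat.sub_add_cancel hn]
  refine ⟨fun T => if T.card = n then
    Ideal.Quotient.mk _ (C (∑ b ∈ Tᶜ, (-1) ^ b.val * w0 b)) else 0, ?_, ?_⟩
  · rw [SetLike.mem_coe, mem_kosP]
    intro T
    by_cases hT : T.card = n
    · rw [if_pos ⟨hT, le_rfl⟩, Nat.sub_self, if_pos hT]
      exact mk_C_grade _
    · rw [if_neg (fun h => hT h.1), if_neg hT]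
      exact Submodule.zero_mem _
  · apply hat_inj
    intro S
    have hg1 : ∀ b : Fin (n + 1), hat (I := vanIdeal U) (fun T => if T.card = n then
        Ideal.Quotient.mk _ (C (∑ b ∈ Tᶜ, (-1) ^ b.val * w0 b)) else 0) {b} =
        Ideal.Quotient.mk _ (C (w0 b)) := by
      intro b
      rw [hat, if_pos (by rw [Finset.card_compl, Fintype.card_fin, Finset.card_singleton]; omega),
        negone_mk, compl_compl, Finset.sum_singleton, Finset.sum_singleton]
      congr 1
      rw [map_mul, map_pow, map_neg, map_one, ← mul_assoc, neg_pow_sq, one_mul]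
    have hg0 : ∀ S : Finset (Fin (n + 1)), S.card ≠ 1 → hat (I := vanIdeal U)
        (fun T => if T.card = n then
        Ideal.Quotient.mk _ (C (∑ b ∈ Tᶜ, (-1) ^ b.val * w0 b)) else 0) S = 0 := by
      intro S hS
      rw [hat, if_neg, mul_zero]
      rw [Finset.card_compl, Fintype.card_fin]
      have := Finset.card_le_univ S
      rw [Fintype.card_fin] at this
      omega
    by_cases hS : S.card = 2
    · obtain ⟨a, b, hab, rfl⟩ := exists_sorted2 hS
      rw [hat_kos_two _ _ hab, hg1, hg1]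
      rw [← sub_eq_zero]
      apply eq_zero_of_evR
      intro v y hy
      have h1 := wf_spec B hn hf v y hy a b
      rw [hc, zt, if_pos hab, F2v] at h1
      rw [map_sub, map_sub, evR_mul hy, evR_mul hy, evR_mk hy, evR_mk hy, h1]
      simp only [eval_X, eval_C]
      ring
    · rw [hat_supp hn hf.1 S hS, hat_kos]
      refine Finset.sum_eq_zero (fun a ha => ?_)
      rw [hg0, mul_zero, mul_zero]
      rw [Finset.card_erase_of_mem ha]
      have := Finset.card_pos.2 ⟨a, ha⟩
      omega

/-- the contribution of a bridge -/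
noncomputable def contr (U : V → Submodule k (Fin (n + 1) → k)) (τ : Br G → k) (e : Br G) (v : V) :
    Fin (n + 1) → k :=
  if (G.deleteEdges {e.1}).Reachable (ends e.1).1 v then
    τ e • pt U (ends e.1).1 (ends e.1).2 else 0

theorem contr_other (τ : Br G → k) (e : Br G) {u v : V} (h : G.Adj u v) (hne : s(u, v) ≠ e.1) :
    contr U τ e u = contr U τ e v := by
  have hadj : (G.deleteEdges {e.1}).Adj u v := by
    rw [SimpleGraph.deleteEdges_adj]
    exact ⟨h, by simpa using hne⟩
  have : (G.deleteEdges {e.1}).Reachable (ends e.1).1 u ↔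
      (G.deleteEdges {e.1}).Reachable (ends e.1).1 v :=
    ⟨fun h => h.trans hadj.reachable, fun h => h.trans hadj.symm.reachable⟩
  unfold contr
  rw [if_congr this rfl rfl]

theorem contr_self (hG : G.Connected) (τ : Br G → k) (e : Br G) :
    contr U τ e (ends e.1).1 - contr U τ e (ends e.1).2 =
      τ e • pt U (ends e.1).1 (ends e.1).2 := by
  unfold contr
  rw [if_pos (SimpleGraph.Reachable.refl _), if_neg, sub_zero]
  intro h
  have h1 := ends_spec e.1
  refine e.2.2 ?_
  rw [← h1] at h ⊢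
  rw [h1] at h ⊢
  nth_rw 1 [← h1] at h
  rw [← h1]
  exact conn_of_reach hG h

/-- the vectors with given coefficients at the bridges -/
noncomputable def wt (U : V → Submodule k (Fin (n + 1) → k)) (τ : Br G → k) (v : V) :
    Fin (n + 1) → k := ∑ e : Br G, contr U τ e v

theorem wt_edge (hG : G.Connected) (τ : Br G → k) {u v : V} (h : G.Adj u v) :
    ∃ t : k, wt U τ u - wt U τ v = t • pt U u v := by
  unfold wt
  rw [← Finset.sum_sub_distrib]
  by_cases hbr : (G.deleteEdges {s(u, v)}).Connected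
  · refine ⟨0, ?_⟩
    rw [zero_smul]
    refine Finset.sum_eq_zero (fun e _ => ?_)
    rw [sub_eq_zero]
    refine contr_other τ e h ?_
    intro he
    exact e.2.2 (he ▸ hbr)
  · have he : s(u, v) ∈ G.edgeSet := h
    rw [Finset.sum_eq_single ⟨s(u, v), he, hbr⟩]
    · have h1 := contr_self (U := U) hG τ ⟨s(u, v), he, hbr⟩
      rcases ends_or u v with h2 | h2
      · rw [h2] at h1
        exact ⟨_, h1⟩
      · rw [h2] at h1
        refine ⟨- τ ⟨s(u, v), he, hbr⟩, ?_⟩
        rw [neg_smul, pt_symm, ← h1, neg_sub]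
    · intro e _ hne
      rw [sub_eq_zero]
      refine contr_other τ e h ?_
      intro h3
      exact hne (Subtype.ext h3.symm)
    · intro h3
      exact absurd (Finset.mem_univ _) h3

theorem wt_bridge (hG : G.Connected) (τ : Br G → k) (e : Br G) :
    wt U τ (ends e.1).1 - wt U τ (ends e.1).2 = τ e • pt U (ends e.1).1 (ends e.1).2 := by
  unfold wt
  rw [← Finset.sum_sub_distrib, Finset.sum_eq_single e]
  · exact contr_self hG τ e
  · intro e' _ hne
    rw [sub_eq_zero]
    refine contr_other τ e' (ends_adj e.2.1) ?_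
    rw [ends_spec]
    intro h
    exact hne (Subtype.ext h.symm)
  · intro h
    exact absurd (Finset.mem_univ _) h

/-- the linear form with given coefficients, as a polynomial -/
noncomputable def lin (ψ : (Fin (n + 1) → k) →ₗ[k] k) : MvPolynomial (Fin (n + 1)) k :=
  ∑ c, C (ψ (Pi.single c 1)) * X c

theorem lin_hom (ψ : (Fin (n + 1) → k) →ₗ[k] k) : (lin ψ).IsHomogeneous 1 := by
  refine IsHomogeneous.sum _ _ _ (fun c _ => ?_)
  exact isHomogeneous_C_mul_X _ _

theorem eval_lin' (ψ : (Fin (n + 1) → k) →ₗ[k] k) (y : Fin (n + 1) → k) :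
    eval y (lin ψ) = ψ y := by
  have hy : y = ∑ c, y c • (Pi.single c 1 : Fin (n + 1) → k) := by
    funext j
    simp [Finset.sum_apply, Pi.single_apply]
  conv_rhs => rw [hy, map_sum]
  rw [lin, map_sum]
  refine Finset.sum_congr rfl (fun c _ => ?_)
  rw [map_mul, eval_C, eval_X, map_smul, smul_eq_mul, mul_comm]

theorem pair_eq {N : ℕ} {a b a' b' : Fin N} (hab : a < b) (hab' : a' < b')
    (h : ({a, b} : Finset (Fin N)) = {a', b'}) : a = a' ∧ b = b' := by
  have h1 : a ∈ ({a', b'} : Finset (Fin N)) := by rw [← h]; simp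
  have h2 : b ∈ ({a', b'} : Finset (Fin N)) := by rw [← h]; simp
  rw [Finset.mem_insert, Finset.mem_singleton] at h1 h2
  rcases h1 with rfl | rfl
  · rcases h2 with rfl | rfl
    · exact absurd hab (lt_irrefl _)
    · exact ⟨rfl, rfl⟩
  · rcases h2 with rfl | rfl
    · exact absurd (hab.trans hab') (lt_irrefl _)
    · exact absurd hab (lt_irrefl _)

theorem Psi_surj [CharZero k] (hG : G.Connected) (hdeg : ∀ v, Nat.card (G.neighborSet v) ≤ 3)
    (hsub : SubgraphCond G) (hU : IsGraphCurve G U) (hn : 1 ≤ n)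
    (hN : n + 1 + Nat.card G.edgeSet = 2 * Fintype.card V) (B : Bases U) (τ : Br G → k) :
    ∃ f ∈ cyc (vanIdeal U) (n - 1) n, Psi G B f = τ := by
  obtain ⟨z, hz⟩ := exists_def hG hsub
  have hex : ∀ a b : Fin (n + 1), ∃ ψ : (Fin (n + 1) → k) →ₗ[k] k, ∀ v, ∀ y ∈ U v,
      ψ y = y a * wt U τ v b - y b * wt U τ v a := by
    intro a b
    obtain ⟨ψ, hψ⟩ := ext_functional hU (conn_univ hG) (degK_le hdeg Finset.univ) hz hN
      (fun v => wt U τ v b • (LinearMap.proj a : (Fin (n + 1) → k) →ₗ[k] k) -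
        wt U τ v a • (LinearMap.proj b : (Fin (n + 1) → k) →ₗ[k] k)) (by
      intro u v huv
      obtain ⟨t, ht⟩ := wt_edge (U := U) hG τ huv
      have h1 : wt U τ u b - wt U τ v b = t * pt U u v b := congrFun ht b
      have h2 : wt U τ u a - wt U τ v a = t * pt U u v a := congrFun ht a
      simp only [LinearMap.sub_apply, LinearMap.smul_apply, LinearMap.proj_apply, smul_eq_mul]
      linear_combination pt U u v a * h1 - pt U u v b * h2)
    refine ⟨ψ, fun v y hy => ?_⟩
    rw [hψ v y hy]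
    simp only [LinearMap.sub_apply, LinearMap.smul_apply, LinearMap.proj_apply, smul_eq_mul]
    ring
  choose ψ hψ using hex
  set f : Finset (Fin (n + 1)) → MvPolynomial (Fin (n + 1)) k ⧸ vanIdeal U := fun T =>
    (-1) ^ (∑ s ∈ Tᶜ, s.val) * ∑ a, ∑ b, if a < b ∧ Tᶜ = {a, b} then
      Ideal.Quotient.mk (vanIdeal U) (lin (ψ a b)) else 0 with hf
  have hat_f : ∀ S, hat f S = ∑ a, ∑ b, if a < b ∧ S = {a, b} then
      Ideal.Quotient.mk (vanIdeal U) (lin (ψ a b)) else 0 := by
    intro S
    rw [hat, hf]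
    simp only [compl_compl]
    rw [← mul_assoc, neg_pow_sq, one_mul]
  have hat_pair : ∀ a b, a < b → hat f {a, b} = Ideal.Quotient.mk (vanIdeal U) (lin (ψ a b)) := by
    intro a b hab
    rw [hat_f, Finset.sum_eq_single a, Finset.sum_eq_single b, if_pos ⟨hab, rfl⟩]
    · intro b' _ hb'
      rw [if_neg]
      rintro ⟨h1, h2⟩
      exact hb' (pair_eq hab h1 h2).2.symm
    · intro h; exact absurd (Finset.mem_univ _) h
    · intro a' _ ha'
      refine Finset.sum_eq_zero (fun b' _ => ?_)
      rw [if_neg]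
      rintro ⟨h1, h2⟩
      exact ha' (pair_eq hab h1 h2).1.symm
    · intro h; exact absurd (Finset.mem_univ _) h
  have hat_other : ∀ S : Finset (Fin (n + 1)), S.card ≠ 2 → hat f S = 0 := by
    intro S hS
    rw [hat_f]
    refine Finset.sum_eq_zero (fun a _ => Finset.sum_eq_zero (fun b _ => ?_))
    rw [if_neg]
    rintro ⟨h1, rfl⟩
    exact hS (Finset.card_pair h1.ne)
  have hval : ∀ v, ∀ y ∈ U v, ∀ a b, a < b →
      evR (vanIdeal U) y (hat f {a, b}) = y a * wt U τ v b - y b * wt U τ v a := by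
    intro v y hy a b hab
    rw [hat_pair a b hab, evR_mk hy, eval_lin', hψ a b v y hy]
  have hcyc : f ∈ cyc (vanIdeal U) (n - 1) n := by
    refine ⟨?_, ?_⟩
    · rw [SetLike.mem_coe, mem_kosP]
      intro T
      by_cases hT : T.card = n - 1
      · rw [if_pos ⟨hT, Nat.sub_le _ _⟩, show n - (n - 1) = 1 by omega]
        have h2 : Tᶜ.card = 2 := by
          rw [Finset.card_compl, Fintype.card_fin, hT]
          omega
        obtain ⟨a, b, hab, hTab⟩ := exists_sorted2 h2
        have h3 := hat_pair a b hab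
        rw [← hTab, hat, compl_compl] at h3
        rcases negone_mem (∑ s ∈ Tᶜ, s.val) (f T) with h4 | h4
        · rw [h4] at h3
          rw [h3]
          exact mem_grade'.2 ⟨_, lin_hom _, rfl⟩
        · rw [h4] at h3
          rw [← neg_neg (f T), h3]
          exact Submodule.neg_mem _ (mem_grade'.2 ⟨_, lin_hom _, rfl⟩)
      · rw [if_neg (fun h => hT h.1)]
        have h2 : Tᶜ.card ≠ 2 := by
          rw [Finset.card_compl, Fintype.card_fin]
          have := Finset.card_le_univ T
          rw [Fintype.card_fin] at this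
          omega
        have h3 := hat_other _ h2
        rw [hat, compl_compl] at h3
        rcases negone_mem (∑ s ∈ Tᶜ, s.val) (f T) with h4 | h4
        · rw [h4] at h3
          exact h3
        · rw [h4] at h3
          exact neg_eq_zero.1 h3
    · exact kos_zero_of_pairs f hat_other (wt U τ) hval
  refine ⟨f, hcyc, ?_⟩
  have hwf : ∀ v, wf B f v = wt U τ v := by
    intro v
    refine wf_unique B hn hcyc ?_
    intro y hy a b
    exact zt_of_pairs f _ y (hval v y hy) a b
  funext e
  change (wf B f (ends e.1).1 (idx U e.1) - wf B f (ends e.1).2 (idx U e.1)) /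
    pt U (ends e.1).1 (ends e.1).2 (idx U e.1) = τ e
  rw [hwf, hwf]
  have h1 := congrFun (wt_bridge (U := U) hG τ e) (idx U e.1)
  rw [Pi.sub_apply, Pi.smul_apply, smul_eq_mul] at h1
  rw [h1]
  exact mul_div_cancel_right₀ _ (idx_spec hU e.2.1)

/-- `b_{n-1,n}` is the number of bridges -/
theorem betti_eq_bridges [CharZero k] (hG : G.Connected)
    (hdeg : ∀ v, Nat.card (G.neighborSet v) ≤ 3)
    (hsub : SubgraphCond G) (hU : IsGraphCurve G U)
    (hnn : (n : ℤ) = (Nat.card V : ℤ) - genus G) :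
    betti (vanIdeal U) (n - 1) n = Nat.card (Br G) := by
  obtain ⟨hN, hn⟩ := numbers hG hsub hnn
  obtain ⟨B⟩ := exists_bases hU
  let Φ : cyc (vanIdeal U) (n - 1) n →ₗ[k] (Br G → k) := (Psi G B) ∘ₗ (Submodule.subtype _)
  have hsurj : Function.Surjective Φ := by
    intro τ
    obtain ⟨f, hf, hf'⟩ := Psi_surj hG hdeg hsub hU hn hN B τ
    exact ⟨⟨f, hf⟩, hf'⟩
  have hker : (bdr (vanIdeal U) (n - 1) n).submoduleOf (cyc (vanIdeal U) (n - 1) n) =
      LinearMap.ker Φ := by
    ext f
    rw [Submodule.submoduleOf, Submodule.mem_comap, LinearMap.mem_ker]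
    constructor
    · intro h
      exact bdr_ker B hn f.2 h
    · intro h
      exact ker_bdr hG hdeg hsub hU hn hN B f.2 h
  rw [betti, hker, LinearEquiv.finrank_eq (Φ.quotKerEquivOfSurjective hsurj),
    Module.finrank_fintype_fun_eq_card, Nat.card_eq_fintype_card]

end Main

end Pool.Agent.V1149.GB
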