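import Mathlib

/-!
# Differences along the edges of a configuration: the combinatorial core
-/

namespace Pool.Agent.V1149.GB

open Relation

set_option linter.unusedSectionVars false

open scoped Classical

section Core

variable {V : Type*} [Fintype V] [DecidableEq V] {k : Type*} [Field k] {W : Type*}
  [AddCommGroup W] [Module k W]

/-- the points on the edges: two points on edges with a common vertex are independent -/
structure Conf (k : Type*) [Field k] {W : Type*} [AddCommGroup W] [Module k W]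
    (G : SimpleGraph V) (p : V → V → W) : Prop where
  symm : ∀ a b, p a b = p b a
  nz : ∀ a b, G.Adj a b → p a b ≠ 0
  ind : ∀ a b b', G.Adj a b → G.Adj a b' → b ≠ b' → ∀ s t : k, s • p a b + t • p a b' = 0 →
    s = 0 ∧ t = 0

/-- adjacent in `K` -/
def inK (G : SimpleGraph V) (K : Finset V) (a b : V) : Prop := a ∈ K ∧ b ∈ K ∧ G.Adj a b

/-- adjacent in `K`, and not by the edge `xy` -/
def inKm (G : SimpleGraph V) (K : Finset V) (x y : V) (a b : V) : Prop :=
  inK G K a b ∧ ¬ (a = x ∧ b = y) ∧ ¬ (a = y ∧ b = x)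

/-- `K` is connected -/
def Conn (G : SimpleGraph V) (K : Finset V) : Prop :=
  ∀ a ∈ K, ∀ b ∈ K, ReflTransGen (inK G K) a b

/-- degree in `K` -/
noncomputable def degK (G : SimpleGraph V) (K : Finset V) (a : V) : ℕ :=
  (K.filter (fun b => G.Adj a b)).card

/-- the relations among the points on the edges in `K` come from the vertices -/
def PK (k : Type*) [Field k] {W : Type*} [AddCommGroup W] [Module k W]
    (G : SimpleGraph V) (p : V → V → W) (K : Finset V) : Prop :=
  ∀ d : V → V → k, (∀ a b, d a b ≠ 0 → inK G K a b) → ∑ a, ∑ b, d a b • p a b = 0 →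
    ∃ c : V → V → k, (∀ a b, c a b ≠ 0 → inK G K a b) ∧ (∀ a b, c a b = - c b a) ∧
      ∀ a, ∑ b, (d a b - c a b) • p a b = 0

theorem inK.symm' {G : SimpleGraph V} {K : Finset V} {a b : V} (h : inK G K a b) :
    inK G K b a := ⟨h.2.1, h.1, h.2.2.symm⟩

theorem inKm.symm' {G : SimpleGraph V} {K : Finset V} {x y a b : V} (h : inKm G K x y a b) :
    inKm G K x y b a := ⟨h.1.symm', fun e => h.2.2 ⟨e.2, e.1⟩, fun e => h.2.1 ⟨e.2, e.1⟩⟩

theorem inKm.swap {G : SimpleGraph V} {K : Finset V} {x y a b : V} (h : inKm G K x y a b) :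
    inKm G K y x a b := ⟨h.1, h.2.2, h.2.1⟩

theorem rtg_symm {α : Type*} {r : α → α → Prop} (hr : ∀ a b, r a b → r b a) {a b : α}
    (h : ReflTransGen r a b) : ReflTransGen r b a := by
  induction h with
  | refl => exact ReflTransGen.refl
  | tail _ hbc ih => exact ReflTransGen.head (hr _ _ hbc) ih

theorem two_zero {G : SimpleGraph V} {p : V → V → W} (hp : Conf k G p) (a : V) (h : V → k)
    (hs : ∀ b, h b ≠ 0 → G.Adj a b) (hc : (Finset.univ.filter (fun b => h b ≠ 0)).card ≤ 2)
    (h0 : ∑ b, h b • p a b = 0) (b : V) : h b = 0 := by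
  by_contra hb
  have hsum : ∑ b, h b • p a b = ∑ b ∈ Finset.univ.filter (fun b => h b ≠ 0), h b • p a b := by
    rw [Finset.sum_filter]
    refine Finset.sum_congr rfl (fun c _ => ?_)
    split_ifs with hh
    · rfl
    · rw [not_not] at hh
      rw [hh, zero_smul]
  by_cases hex : ∃ b', b' ≠ b ∧ h b' ≠ 0
  · obtain ⟨b', hne, hb'⟩ := hex
    have hset : Finset.univ.filter (fun b => h b ≠ 0) = {b, b'} := by
      symm
      apply Finset.eq_of_subset_of_card_le
      · intro c hc'
        rw [Finset.mem_insert, Finset.mem_singleton] at hc'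
        rcases hc' with rfl | rfl <;> simp [hb, hb']
      · rw [Finset.card_pair (Ne.symm hne)]
        exact hc
    rw [hsum, hset, Finset.sum_pair (Ne.symm hne)] at h0
    exact hb (hp.ind a b b' (hs b hb) (hs b' hb') (Ne.symm hne) _ _ h0).1
  · push Not at hex
    rw [Finset.sum_eq_single b] at h0
    · rcases smul_eq_zero.1 h0 with h1 | h1
      · exact hb h1
      · exact hp.nz a b (hs b hb) h1
    · intro c _ hc'
      rw [hex c hc', zero_smul]
    · intro hh
      exact absurd (Finset.mem_univ _) hh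

theorem card_supp_le {G : SimpleGraph V} {K : Finset V} {a : V} (h : V → k)
    (hs : ∀ b, h b ≠ 0 → inK G K a b) :
    (Finset.univ.filter (fun b => h b ≠ 0)).card ≤ degK G K a := by
  refine Finset.card_le_card ?_
  intro b hb
  rw [Finset.mem_filter] at hb ⊢
  exact ⟨(hs b hb.2).2.1, (hs b hb.2).2.2⟩

theorem card_supp_lt {G : SimpleGraph V} {K : Finset V} {a b : V} (h : V → k)
    (hs : ∀ b, h b ≠ 0 → inK G K a b) (hb : inK G K a b) (h0 : h b = 0) :
    (Finset.univ.filter (fun b => h b ≠ 0)).card < degK G K a := by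
  refine Finset.card_lt_card ?_
  rw [Finset.ssubset_iff_of_subset]
  · refine ⟨b, ?_, ?_⟩
    · rw [Finset.mem_filter]
      exact ⟨hb.2.1, hb.2.2⟩
    · simp [h0]
  · intro c hc
    rw [Finset.mem_filter] at hc ⊢
    exact ⟨(hs c hc.2).2.1, (hs c hc.2).2.2⟩

/-- propagation: the coefficients vanish outside `K'` -/
theorem PK_step {G : SimpleGraph V} {p : V → V → W} (hp : Conf k G p) {K : Finset V}
    (hdeg : ∀ a, degK G K a ≤ 3) (hK : Conn G K) (hPK : PK k G p K) {z : V} (hz : z ∈ K)
    (hz2 : degK G K z ≤ 2) (K' : Finset V) (hK' : K' ⊆ K.erase z)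
    (hcl : ∀ a b, a ∈ K' → inK G (K.erase z) a b → b ∈ K') : PK k G p K' := by
  intro d hd hd0
  obtain ⟨c, hc, hca, hcs⟩ := hPK d (fun a b h => by
    obtain ⟨h1, h2, h3⟩ := hd a b h
    exact ⟨Finset.mem_of_mem_erase (hK' h1), Finset.mem_of_mem_erase (hK' h2), h3⟩) hd0
  have hd' : ∀ a b, a ∉ K' → d a b = 0 := by
    intro a b ha
    by_contra h
    exact ha (hd a b h).1
  have hsum : ∀ a, a ∉ K' → ∑ b, c a b • p a b = 0 := by
    intro a ha
    have := hcs a
    simp only [hd' a _ ha, zero_sub, neg_smul, Finset.sum_neg_distrib, neg_eq_zero] at this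
    exact this
  have hzK' : z ∉ K' := fun h => by
    have := hK' h
    simp at this
  have hz0 : ∀ b, c z b = 0 := by
    refine two_zero hp z (c z) (fun b hb => (hc z b hb).2.2) ?_ (hsum z hzK')
    exact (card_supp_le (c z) (hc z)).trans hz2
  have key : ∀ a, ReflTransGen (inK G K) z a → (a ∈ K' ∨ ∀ b, c a b = 0) := by
    intro a ha
    induction ha with
    | refl => exact Or.inr hz0
    | @tail b a _ hba ih =>
      by_cases haK : a ∈ K'
      · exact Or.inl haK
      · right
        rcases ih with ih | ih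
        · by_cases haz : a = z
          · subst haz
            exact hz0
          · exfalso
            refine haK (hcl b a ih ⟨hK' ih, Finset.mem_erase.2 ⟨haz, hba.2.1⟩, hba.2.2⟩)
        · refine two_zero hp a (c a) (fun b hb => (hc a b hb).2.2) ?_ (hsum a haK)
          have h1 : c a b = 0 := by rw [hca, ih, neg_zero]
          have := card_supp_lt (c a) (hc a) hba.symm' h1
          have := hdeg a
          omega
  refine ⟨c, ?_, hca, hcs⟩
  intro a b hab
  have h1 := hc a b hab
  refine ⟨?_, ?_, h1.2.2⟩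
  · rcases key a (hK z hz a h1.1) with h | h
    · exact h
    · exact absurd (h b) hab
  · rcases key b (hK z hz b h1.2.1) with h | h
    · exact h
    · exact absurd (by rw [hca, h a, neg_zero]) hab

theorem rtg_mono {G : SimpleGraph V} {K K' : Finset V} (h : K ⊆ K') {x y a b : V}
    (hr : ReflTransGen (inKm G K x y) a b) : ReflTransGen (inKm G K' x y) a b :=
  ReflTransGen.mono (fun _ _ hh => ⟨⟨h hh.1.1, h hh.1.2.1, hh.1.2.2⟩, hh.2⟩) _ _ hr

/-- last visit of one of two vertices -/
theorem last_visit {G : SimpleGraph V} {K : Finset V} {x y z1 z2 a b : V} (hne : z1 ≠ z2)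
    (h : ReflTransGen (inKm G K x y) a b) :
    ReflTransGen (inKm G (K.erase z1) x y) z2 b ∨ ReflTransGen (inKm G (K.erase z2) x y) z1 b ∨
      ReflTransGen (inKm G ((K.erase z1).erase z2) x y) a b := by
  induction h using ReflTransGen.head_induction_on with
  | refl => exact Or.inr (Or.inr ReflTransGen.refl)
  | @head a a' haa' _ ih =>
    rcases ih with ih | ih | ih
    · exact Or.inl ih
    · exact Or.inr (Or.inl ih)
    · have m1 : (K.erase z1).erase z2 ⊆ K.erase z1 := Finset.erase_subset _ _
      have m2 : (K.erase z1).erase z2 ⊆ K.erase z2 := by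
        rw [Finset.erase_right_comm]
        exact Finset.erase_subset _ _
      by_cases h1 : a' = z1
      · subst h1
        exact Or.inr (Or.inl (rtg_mono m2 ih))
      by_cases h2 : a' = z2
      · subst h2
        exact Or.inl (rtg_mono m1 ih)
      by_cases h3 : a = z1
      · subst h3
        refine Or.inr (Or.inl (ReflTransGen.head ?_ (rtg_mono m2 ih)))
        exact ⟨⟨Finset.mem_erase.2 ⟨hne, haa'.1.1⟩, Finset.mem_erase.2 ⟨h2, haa'.1.2.1⟩,
          haa'.1.2.2⟩, haa'.2⟩
      by_cases h4 : a = z2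
      · subst h4
        refine Or.inl (ReflTransGen.head ?_ (rtg_mono m1 ih))
        exact ⟨⟨Finset.mem_erase.2 ⟨hne.symm, haa'.1.1⟩, Finset.mem_erase.2 ⟨h1, haa'.1.2.1⟩,
          haa'.1.2.2⟩, haa'.2⟩
      refine Or.inr (Or.inr (ReflTransGen.head ?_ ih))
      exact ⟨⟨Finset.mem_erase.2 ⟨h4, Finset.mem_erase.2 ⟨h3, haa'.1.1⟩⟩,
        Finset.mem_erase.2 ⟨h2, Finset.mem_erase.2 ⟨h1, haa'.1.2.1⟩⟩, haa'.1.2.2⟩, haa'.2⟩

/-- there are at least three edges that leave a set of vertices of degree three -/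
theorem three_pairs {G : SimpleGraph V} {K S : Finset V} (hSK : S ⊆ K)
    (h3 : ∀ a ∈ S, degK G K a = 3) (hA : ∑ a ∈ S, degK G S a + 3 ≤ 3 * S.card) :
    3 ≤ ((S ×ˢ (K \ S)).filter (fun q => G.Adj q.1 q.2)).card := by
  have h1 : ((S ×ˢ (K \ S)).filter (fun q => G.Adj q.1 q.2)).card =
      ∑ a ∈ S, ((K \ S).filter (fun b => G.Adj a b)).card := by
    rw [Finset.card_filter, Finset.sum_product]
    refine Finset.sum_congr rfl (fun a _ => ?_)
    rw [Finset.card_filter]
  have h2 : ∀ a ∈ S, ((K \ S).filter (fun b => G.Adj a b)).card + degK G S a = 3 := by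
    intro a ha
    rw [← h3 a ha, degK, degK, ← Finset.card_union_of_disjoint]
    · congr 1
      rw [← Finset.filter_union, Finset.sdiff_union_of_subset hSK]
    · exact Finset.disjoint_filter_filter Finset.sdiff_disjoint
  have h4 : ∑ a ∈ S, (((K \ S).filter (fun b => G.Adj a b)).card + degK G S a) = 3 * S.card := by
    rw [Finset.sum_congr rfl h2, Finset.sum_const, smul_eq_mul, mul_comm]
  rw [Finset.sum_add_distrib] at h4
  omega

/-- the ends of an edge that is on no cycle avoiding a vertex of degree at most two have degree at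
most two -/
theorem endpoint {G : SimpleGraph V} (hA : ∀ S : Finset V, S.Nonempty → Conn G S →
      ∑ a ∈ S, degK G S a + 3 ≤ 3 * S.card) {K : Finset V}
    (hdeg : ∀ a, degK G K a ≤ 3) {x y : V} (hxy : inK G K x y)
    (hnb : ReflTransGen (inKm G K x y) x y)
    (hstar : ∀ z ∈ K, degK G K z ≤ 2 → ¬ ReflTransGen (inKm G (K.erase z) x y) x y)
    (hZ : ∃ z ∈ K, degK G K z ≤ 2) : degK G K x ≤ 2 := by
  by_contra hx
  set Z : Finset V := K.filter (fun z => degK G K z ≤ 2) with hZdef
  have hZmem : ∀ z, z ∈ Z ↔ z ∈ K ∧ degK G K z ≤ 2 := fun z => by rw [hZdef, Finset.mem_filter]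
  set S : Finset V := Finset.univ.filter (fun a => ReflTransGen (inKm G (K \ Z) x y) x a) with hS
  have hSmem : ∀ a, a ∈ S ↔ ReflTransGen (inKm G (K \ Z) x y) x a := fun a => by
    rw [hS, Finset.mem_filter]; simp
  have hxK : x ∈ K \ Z := by
    rw [Finset.mem_sdiff, hZmem]
    exact ⟨hxy.1, fun h => hx h.2⟩
  have hSK : S ⊆ K \ Z := by
    intro a ha
    rw [hSmem] at ha
    rcases ReflTransGen.cases_tail ha with h | ⟨c, _, h⟩
    · rw [h]; exact hxK
    · exact h.1.2.1
  have hxS : x ∈ S := (hSmem x).2 ReflTransGen.refl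
  have hyS : y ∉ S := by
    intro hy
    obtain ⟨z, hz, hz2⟩ := hZ
    refine hstar z hz hz2 ?_
    refine rtg_mono ?_ ((hSmem y).1 hy)
    intro a ha
    rw [Finset.mem_sdiff] at ha
    refine Finset.mem_erase.2 ⟨?_, ha.1⟩
    rintro rfl
    exact ha.2 ((hZmem a).2 ⟨hz, hz2⟩)
  have hstep : ∀ a ∈ S, ∀ b, inKm G (K \ Z) x y a b → b ∈ S := by
    intro a ha b hab
    rw [hSmem] at ha ⊢
    exact ha.tail hab
  have hSconn : Conn G S := by
    have h1 : ∀ a ∈ S, ReflTransGen (inK G S) x a := by
      intro a ha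
      rw [hSmem] at ha
      have : ∀ a, ReflTransGen (inKm G (K \ Z) x y) x a → a ∈ S ∧ ReflTransGen (inK G S) x a := by
        intro a h
        induction h with
        | refl => exact ⟨hxS, ReflTransGen.refl⟩
        | @tail b c _ hbc ih =>
          have hc := hstep b ih.1 c hbc
          exact ⟨hc, ih.2.tail ⟨ih.1, hc, hbc.1.2.2⟩⟩
      exact (this a ha).2
    intro a ha b hb
    exact (rtg_symm (fun _ _ h => h.symm') (h1 a ha)).trans (h1 b hb)
  have h3 : ∀ a ∈ S, degK G K a = 3 := by
    intro a ha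
    have h1 := hSK ha
    rw [Finset.mem_sdiff, hZmem] at h1
    have h2 := hdeg a
    have h4 : ¬ degK G K a ≤ 2 := fun h => h1.2 ⟨h1.1, h⟩
    omega
  have hpairs := three_pairs (hSK.trans Finset.sdiff_subset) h3 (hA S ⟨x, hxS⟩ hSconn)
  set Q := (S ×ˢ (K \ S)).filter (fun q => G.Adj q.1 q.2) with hQ
  have hQmem : ∀ q, q ∈ Q ↔ (q.1 ∈ S ∧ q.2 ∈ K ∧ q.2 ∉ S) ∧ G.Adj q.1 q.2 := by
    intro q
    rw [hQ, Finset.mem_filter, Finset.mem_product, Finset.mem_sdiff]
  have hQZ : ∀ q ∈ Q.erase (x, y), q.2 ∈ Z := by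
    intro q hq
    rw [Finset.mem_erase, hQmem] at hq
    obtain ⟨hne, ⟨h1, h2, h4⟩, h5⟩ := hq
    by_contra h6
    refine h4 (hstep q.1 h1 q.2 ⟨⟨hSK h1, Finset.mem_sdiff.2 ⟨h2, h6⟩, h5⟩, ?_, ?_⟩)
    · rintro ⟨e1, e2⟩
      exact hne (Prod.ext e1 e2)
    · rintro ⟨e1, _⟩
      exact hyS (e1 ▸ h1)
  have hreach : ∀ q ∈ Q.erase (x, y), ∀ z ∈ Z, q.2 ≠ z →
      ReflTransGen (inKm G (K.erase z) x y) x q.2 := by
    intro q hq z hz hne
    have hqZ := hQZ q hq
    rw [Finset.mem_erase, hQmem] at hq
    obtain ⟨hne', ⟨h1, h2, h4⟩, h5⟩ := hq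
    have hsub : K \ Z ⊆ K.erase z := by
      intro a ha
      rw [Finset.mem_sdiff] at ha
      refine Finset.mem_erase.2 ⟨?_, ha.1⟩
      rintro rfl
      exact ha.2 hz
    refine (rtg_mono hsub ((hSmem q.1).1 h1)).tail ⟨⟨hsub (hSK h1),
      Finset.mem_erase.2 ⟨hne, h2⟩, h5⟩, ?_, ?_⟩
    · rintro ⟨e1, e2⟩
      exact hne' (Prod.ext e1 e2)
    · rintro ⟨e1, _⟩
      exact hyS (e1 ▸ h1)
  have huniq : ∀ q ∈ Q.erase (x, y), ∀ q' ∈ Q.erase (x, y), q.2 = q'.2 := by
    intro q hq q' hq'
    by_contra hne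
    have hz1 := hQZ q hq
    have hz2 := hQZ q' hq'
    rcases last_visit hne hnb with h | h | h
    · exact hstar q.2 ((hZmem _).1 hz1).1 ((hZmem _).1 hz1).2
        ((hreach q' hq' q.2 hz1 (Ne.symm hne)).trans h)
    · exact hstar q'.2 ((hZmem _).1 hz2).1 ((hZmem _).1 hz2).2
        ((hreach q hq q'.2 hz2 hne).trans h)
    · exact hstar q.2 ((hZmem _).1 hz1).1 ((hZmem _).1 hz1).2
        (rtg_mono (Finset.erase_subset _ _) h)
  have hcard : 2 ≤ (Q.erase (x, y)).card := by
    have := Finset.pred_card_le_card_erase (s := Q) (a := (x, y))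
    omega
  obtain ⟨q1, hq1, q2, hq2, hq12⟩ := Finset.one_lt_card.1 hcard
  have hz := huniq q1 hq1 q2 hq2
  set z := q1.2 with hzdef
  have hzZ := (hZmem z).1 (hQZ q1 hq1)
  have hs12 : q1.1 ≠ q2.1 := fun h => hq12 (Prod.ext h hz)
  have m1 := (hQmem q1).1 (Finset.mem_of_mem_erase hq1)
  have m2 := (hQmem q2).1 (Finset.mem_of_mem_erase hq2)
  have hN : K.filter (fun b => G.Adj z b) = {q1.1, q2.1} := by
    symm
    apply Finset.eq_of_subset_of_card_le
    · intro c hc
      rw [Finset.mem_insert, Finset.mem_singleton] at hc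
      rw [Finset.mem_filter]
      rcases hc with rfl | rfl
      · exact ⟨(Finset.mem_sdiff.1 (hSK m1.1.1)).1, m1.2.symm⟩
      · refine ⟨(Finset.mem_sdiff.1 (hSK m2.1.1)).1, ?_⟩
        rw [hz]
        exact m2.2.symm
    · rw [Finset.card_pair hs12]
      exact hzZ.2
  have hclosed : ∀ a b, a ∈ insert z S → inKm G K x y a b → b ∈ insert z S := by
    intro a b ha hab
    rw [Finset.mem_insert] at ha ⊢
    rcases ha with rfl | ha
    · right
      have : b ∈ K.filter (fun b => G.Adj z b) := Finset.mem_filter.2 ⟨hab.1.2.1, hab.1.2.2⟩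
      rw [hN, Finset.mem_insert, Finset.mem_singleton] at this
      rcases this with rfl | rfl
      · exact m1.1.1
      · exact m2.1.1
    · by_cases hb : b ∈ S
      · exact Or.inr hb
      · left
        have hq : (a, b) ∈ Q.erase (x, y) := by
          refine Finset.mem_erase.2 ⟨?_, (hQmem _).2 ⟨⟨ha, hab.1.2.1, hb⟩, hab.1.2.2⟩⟩
          intro e
          rw [Prod.mk.injEq] at e
          exact hab.2.1 e
        exact (huniq _ hq q1 hq1)
  have hall : ∀ b, ReflTransGen (inKm G K x y) x b → b ∈ insert z S := by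
    intro b hb
    induction hb with
    | refl => exact Finset.mem_insert_of_mem hxS
    | tail _ hbc ih => exact hclosed _ _ ih hbc
  have hy := hall y hnb
  rw [Finset.mem_insert] at hy
  rcases hy with hy | hy
  · have : x ∈ K.filter (fun b => G.Adj z b) := by
      rw [← hy]
      exact Finset.mem_filter.2 ⟨hxy.1, hxy.2.2.symm⟩
    rw [hN, Finset.mem_insert, Finset.mem_singleton] at this
    rcases this with h | h
    · exact (Finset.mem_erase.1 hq1).1 (Prod.ext h.symm hy.symm)
    · refine (Finset.mem_erase.1 hq2).1 (Prod.ext h.symm ?_)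
      rw [← hz, ← hy]
  · exact hyS hy

/-- a difference along a path is a combination of the points on its edges -/
theorem rep_path {G : SimpleGraph V} {p : V → V → W} {K : Finset V} {x y : V} {w : V → W}
    (hw : ∀ a b, inK G K a b → ∃ t : k, w a - w b = t • p a b) {a b : V}
    (h : ReflTransGen (inKm G K x y) a b) :
    ∃ d : V → V → k, (∀ a b, d a b ≠ 0 → inKm G K x y a b) ∧
      w a - w b = ∑ a, ∑ b, d a b • p a b := by
  induction h with
  | refl => exact ⟨fun _ _ => 0, by simp, by simp⟩
  | @tail b c _ hbc ih =>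
    obtain ⟨d, hd, hd'⟩ := ih
    obtain ⟨t, ht⟩ := hw b c hbc.1
    refine ⟨fun a' b' => d a' b' + if a' = b ∧ b' = c then t else 0, ?_, ?_⟩
    · intro a' b' h
      by_cases h1 : a' = b ∧ b' = c
      · rw [h1.1, h1.2]; exact hbc
      · beta_reduce at h
        rw [if_neg h1, add_zero] at h
        exact hd a' b' h
    · have h1 : w a - w c = (w a - w b) + (w b - w c) := by abel
      rw [h1, hd', ht]
      simp only [add_smul, Finset.sum_add_distrib]
      congr 1
      rw [Finset.sum_eq_single b, Finset.sum_eq_single c]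
      · simp
      · intro c' _ hc'
        rw [if_neg (fun h => hc' h.2), zero_smul]
      · intro h; exact absurd (Finset.mem_univ _) h
      · intro b' _ hb'
        refine Finset.sum_eq_zero (fun c' _ => ?_)
        rw [if_neg (fun h => hb' h.1), zero_smul]
      · intro h; exact absurd (Finset.mem_univ _) h

theorem main_core {G : SimpleGraph V} {p : V → V → W} (hp : Conf k G p)
    (hdeg : ∀ (K : Finset V) (a : V), degK G K a ≤ 3)
    (hA : ∀ S : Finset V, S.Nonempty → Conn G S → ∑ a ∈ S, degK G S a + 3 ≤ 3 * S.card) :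
    ∀ (m : ℕ) (K : Finset V), K.card ≤ m → Conn G K → PK k G p K → ∀ w : V → W,
      (∀ a b, inK G K a b → ∃ t : k, w a - w b = t • p a b) → ∀ x y, inK G K x y →
      ReflTransGen (inKm G K x y) x y → w x = w y := by
  intro m
  induction m with
  | zero =>
    intro K hK _ _ w _ x y hxy
    have := Finset.card_eq_zero.1 (Nat.le_zero.1 hK)
    rw [this] at hxy
    exact absurd hxy.1 (Finset.notMem_empty _)
  | succ m ih =>
    intro K hK hKc hPK w hw x y hxy hnb
    by_contra hne
    have hstar : ∀ z ∈ K, degK G K z ≤ 2 → ¬ ReflTransGen (inKm G (K.erase z) x y) x y := by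
      intro z hz hz2 hr
      set K' : Finset V := Finset.univ.filter (fun a => ReflTransGen (inK G (K.erase z)) x a)
        with hK'
      have hmem : ∀ a, a ∈ K' ↔ ReflTransGen (inK G (K.erase z)) x a := fun a => by
        rw [hK', Finset.mem_filter]; simp
      have hxz : x ∈ K.erase z := by
        rcases ReflTransGen.cases_head hr with h | ⟨c, h, _⟩
        · exact absurd (h ▸ rfl) hne
        · exact h.1.1
      have hsub : K' ⊆ K.erase z := by
        intro a ha
        rw [hmem] at ha
        rcases ReflTransGen.cases_tail ha with h | ⟨c, _, h⟩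
        · rw [h]; exact hxz
        · exact h.2.1
      have hcl : ∀ a b, a ∈ K' → inK G (K.erase z) a b → b ∈ K' := by
        intro a b ha hab
        rw [hmem] at ha ⊢
        exact ha.tail hab
      have hxK' : x ∈ K' := (hmem x).2 ReflTransGen.refl
      have hin : ∀ a, ReflTransGen (inK G (K.erase z)) x a → ReflTransGen (inK G K') x a := by
        intro a h
        induction h with
        | refl => exact ReflTransGen.refl
        | @tail b c hb hbc ih' =>
          exact ih'.tail ⟨(hmem b).2 hb, (hmem c).2 (hb.tail hbc), hbc.2.2⟩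
      have hinm : ∀ a, ReflTransGen (inKm G (K.erase z) x y) x a →
          ReflTransGen (inK G (K.erase z)) x a ∧ ReflTransGen (inKm G K' x y) x a := by
        intro a h
        induction h with
        | refl => exact ⟨ReflTransGen.refl, ReflTransGen.refl⟩
        | @tail b c _ hbc ih' =>
          have h1 := ih'.1.tail hbc.1
          exact ⟨h1, ih'.2.tail ⟨⟨(hmem b).2 ih'.1, (hmem c).2 h1, hbc.1.2.2⟩, hbc.2⟩⟩
      have hK'c : Conn G K' := by
        intro a ha b hb
        exact (rtg_symm (fun _ _ h => h.symm') (hin a ((hmem a).1 ha))).trans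
          (hin b ((hmem b).1 hb))
      have hcard : K'.card ≤ m := by
        have h1 := Finset.card_le_card hsub
        rw [Finset.card_erase_of_mem hz] at h1
        omega
      have hy := hinm y hr
      refine hne (ih K' hcard hK'c (PK_step hp (hdeg K) hKc hPK hz hz2 K' hsub hcl) w ?_ x y
        ⟨hxK', (hmem y).2 hy.1, hxy.2.2⟩ hy.2)
      intro a b hab
      exact hw a b ⟨Finset.mem_of_mem_erase (hsub hab.1), Finset.mem_of_mem_erase (hsub hab.2.1),
        hab.2.2⟩
    have hZ : ∃ z ∈ K, degK G K z ≤ 2 := by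
      by_contra hcon
      push Not at hcon
      have h1 := hA K ⟨x, hxy.1⟩ hKc
      have h2 : K.card * 3 ≤ ∑ a ∈ K, degK G K a := by
        rw [← smul_eq_mul, ← Finset.sum_const]
        exact Finset.sum_le_sum (fun a ha => hcon a ha)
      omega
    have hx2 := endpoint hA (hdeg K) hxy hnb hstar hZ
    have hnb' : ReflTransGen (inKm G K y x) y x := by
      have h1 := rtg_symm (fun _ _ h => h.symm') hnb
      exact ReflTransGen.mono (fun _ _ h => h.swap) _ _ h1
    have hy2 : degK G K y ≤ 2 := by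
      refine endpoint hA (hdeg K) hxy.symm' hnb' ?_ hZ
      intro z hz hz2 hr
      refine hstar z hz hz2 ?_
      have h1 := rtg_symm (fun _ _ h => h.symm') hr
      exact ReflTransGen.mono (fun _ _ h => h.swap) _ _ h1
    obtain ⟨d, hd, hd'⟩ := rep_path hw hnb
    obtain ⟨t, ht⟩ := hw x y hxy
    have hxy' : x ≠ y := hxy.2.2.ne
    obtain ⟨c, hc, hca, hcs⟩ := hPK (fun a b => d a b - if a = x ∧ b = y then t else 0) (by
      intro a b h
      by_cases h1 : a = x ∧ b = y
      · rw [h1.1, h1.2]; exact hxy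
      · rw [if_neg h1, sub_zero] at h
        exact (hd a b h).1) (by
      simp only [sub_smul, Finset.sum_sub_distrib]
      rw [← hd', ht, sub_eq_zero]
      symm
      rw [Finset.sum_eq_single x, Finset.sum_eq_single y]
      · simp
      · intro c' _ hc'
        rw [if_neg (fun h => hc' h.2), zero_smul]
      · intro h; exact absurd (Finset.mem_univ _) h
      · intro b' _ hb'
        refine Finset.sum_eq_zero (fun c' _ => ?_)
        rw [if_neg (fun h => hb' h.1), zero_smul]
      · intro h; exact absurd (Finset.mem_univ _) h)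
    have hdx : d x y = 0 := by
      by_contra h
      exact (hd x y h).2.1 ⟨rfl, rfl⟩
    have hdy : d y x = 0 := by
      by_contra h
      exact (hd y x h).2.2 ⟨rfl, rfl⟩
    have hsupp : ∀ a b, (d a b - (if a = x ∧ b = y then t else 0) - c a b) ≠ 0 → inK G K a b := by
      intro a b h
      by_contra hcon
      have h1 : d a b = 0 := by
        by_contra h'
        exact hcon (hd a b h').1
      have h2 : c a b = 0 := by
        by_contra h'
        exact hcon (hc a b h')
      have h3 : ¬ (a = x ∧ b = y) := by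
        rintro ⟨rfl, rfl⟩
        exact hcon hxy
      rw [h1, h2, if_neg h3] at h
      simp at h
    have hcx := two_zero hp x _ (fun b hb => (hsupp x b hb).2.2)
      ((card_supp_le _ (hsupp x)).trans hx2) (hcs x) y
    have hcy := two_zero hp y _ (fun b hb => (hsupp y b hb).2.2)
      ((card_supp_le _ (hsupp y)).trans hy2) (hcs y) x
    rw [hdx, if_pos ⟨rfl, rfl⟩] at hcx
    rw [hdy, if_neg (fun h => hxy' h.1.symm)] at hcy
    have h1 : c y x = 0 := by linear_combination - hcy
    have h2 : t = 0 := by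
      have := hca x y
      rw [h1] at this
      linear_combination - hcx - this
    rw [h2, zero_smul, sub_eq_zero] at ht
    exact hne ht

end Core

end Pool.Agent.V1149.GB
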