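import Mathlib

/-!
# Graph curves and graded Betti numbers: definitions

`k` is a field, `S = k[x_0, …, x_n]` is `MvPolynomial (Fin (n + 1)) k`.
-/

namespace Pool.Agent.V1149.GB

open MvPolynomial

section Betti

variable {k : Type*} [Field k] {N : ℕ}

/-- the homogeneous ideal of the union of the linear subspaces `U v`: all polynomials that vanish
at every point of every `U v` -/
def vanIdeal {V : Type*} (U : V → Submodule k (Fin N → k)) : Ideal (MvPolynomial (Fin N) k) where
  carrier := {F | ∀ v, ∀ x ∈ U v, eval x F = 0}
  add_mem' := fun ha hb v x hx => by rw [map_add, ha v x hx, hb v x hx, add_zero]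
  zero_mem' := fun _ x _ => map_zero (eval x)
  smul_mem' := fun c _ ha v x hx => by rw [smul_eq_mul, map_mul, ha v x hx, mul_zero]

/-- the degree `m` part of `R = S / I` -/
noncomputable def grade (I : Ideal (MvPolynomial (Fin N) k)) (m : ℕ) :
    Submodule k (MvPolynomial (Fin N) k ⧸ I) :=
  (homogeneousSubmodule (Fin N) k m).map (Ideal.Quotient.mkₐ k I).toLinearMap

/-- the formula of the Koszul differential: an element `∑ f(T) e_T` of the Koszul complex of
`R = S / I` with respect to the variables is the function `f` on the sets `T` of indices, and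
`d e_T = ∑_{a ∈ T} (-1)^{#{b ∈ T : b < a}} x_a e_{T ∖ a}` -/
noncomputable def kosFun (I : Ideal (MvPolynomial (Fin N) k))
    (f : Finset (Fin N) → MvPolynomial (Fin N) k ⧸ I) (T : Finset (Fin N)) :
    MvPolynomial (Fin N) k ⧸ I :=
  ∑ a ∈ Tᶜ, (-1) ^ (T.filter (· < a)).card * (Ideal.Quotient.mk I (X a) * f (insert a T))

theorem kosFun_add (I : Ideal (MvPolynomial (Fin N) k))
    (f g : Finset (Fin N) → MvPolynomial (Fin N) k ⧸ I) :
    kosFun I (f + g) = kosFun I f + kosFun I g := by
  funext T
  simp only [kosFun, Pi.add_apply, mul_add, Finset.sum_add_distrib]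

theorem kosFun_smul (I : Ideal (MvPolynomial (Fin N) k)) (c : k)
    (f : Finset (Fin N) → MvPolynomial (Fin N) k ⧸ I) :
    kosFun I (c • f) = c • kosFun I f := by
  funext T
  simp only [kosFun, Pi.smul_apply, Finset.smul_sum, mul_smul_comm]

/-- the Koszul differential, see `kosFun` -/
noncomputable def kos (I : Ideal (MvPolynomial (Fin N) k)) :
    (Finset (Fin N) → MvPolynomial (Fin N) k ⧸ I) →ₗ[k]
      (Finset (Fin N) → MvPolynomial (Fin N) k ⧸ I) :=
  ⟨⟨kosFun I, kosFun_add I⟩, kosFun_smul I⟩

/-- the part of homological degree `i` and internal degree `j` of the Koszul complex: the functions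
`f` supported on the `i`-element sets, with values of degree `j - i` (zero when `j < i`) -/
noncomputable def kosPart (I : Ideal (MvPolynomial (Fin N) k)) (i j : ℕ) :
    Submodule k (Finset (Fin N) → MvPolynomial (Fin N) k ⧸ I) :=
  Submodule.pi Set.univ (fun T => if T.card = i ∧ i ≤ j then grade I (j - i) else ⊥)

/-- the cycles of homological degree `i` and internal degree `j` -/
noncomputable def cyc (I : Ideal (MvPolynomial (Fin N) k)) (i j : ℕ) :
    Submodule k (Finset (Fin N) → MvPolynomial (Fin N) k ⧸ I) :=
  kosPart I i j ⊓ LinearMap.ker (kos I)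

/-- the boundaries of homological degree `i` and internal degree `j` -/
noncomputable def bdr (I : Ideal (MvPolynomial (Fin N) k)) (i j : ℕ) :
    Submodule k (Finset (Fin N) → MvPolynomial (Fin N) k ⧸ I) :=
  (kosPart I (i + 1) j).map (kos I)

/-- the graded Betti number `b_{i,j} = dim Tor_i^S(S / I, k)_j`, computed by the Koszul complex: the
dimension of the space of the cycles modulo the boundaries -/
noncomputable def betti (I : Ideal (MvPolynomial (Fin N) k)) (i j : ℕ) : ℕ :=
  Module.finrank k (↥(cyc I i j) ⧸ (bdr I i j).submoduleOf (cyc I i j))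

end Betti

section Graph

variable {V : Type*}

/-- `G` is planar: it has a straight-line drawing in the plane in which the vertices are distinct
points, no vertex lies on an edge other than at its ends, and two different edges have at most a
common end in common -/
def IsPlanar (G : SimpleGraph V) : Prop :=
  ∃ f : V → ℝ × ℝ, Function.Injective f ∧
    (∀ u v w : V, G.Adj u v → f w ∈ segment ℝ (f u) (f v) → w = u ∨ w = v) ∧
    ∀ u v x y : V, G.Adj u v → G.Adj x y → s(u, v) ≠ s(x, y) →
      ∀ p, p ∈ segment ℝ (f u) (f v) → p ∈ segment ℝ (f x) (f y) →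
        ∃ w, (w = u ∨ w = v) ∧ (w = x ∨ w = y) ∧ p = f w

/-- the genus `g(G) = m(G) - d(G) + 1` -/
noncomputable def genus (G : SimpleGraph V) : ℤ :=
  (Nat.card G.edgeSet : ℤ) - (Nat.card V : ℤ) + 1

/-- every connected subgraph `H` of `G` has `d(H) ≥ 2 g(H) + 1` -/
def SubgraphCond (G : SimpleGraph V) : Prop :=
  ∀ H : G.Subgraph, H.Connected → 2 * genus H.coe + 1 ≤ (Nat.card H.verts : ℤ)

/-- the graphs of the problem: connected, planar, of maximum degree at most `3`, and with
`d(H) ≥ 2 g(H) + 1` for every connected subgraph `H` -/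
structure Admissible (G : SimpleGraph V) : Prop where
  /-- `G` is connected -/
  conn : G.Connected
  /-- `G` is planar -/
  planar : IsPlanar G
  /-- every vertex has degree at most `3` -/
  deg : ∀ v, Nat.card (G.neighborSet v) ≤ 3
  /-- the condition on the connected subgraphs -/
  sub : SubgraphCond G

/-- the number of subgraphs of `G` isomorphic to the cycle `C_c` -/
noncomputable def numCycles (G : SimpleGraph V) (c : ℕ) : ℕ :=
  Nat.card {H : G.Subgraph // Nonempty (H.coe ≃g SimpleGraph.cycleGraph c)}

/-- the lines of `P^n` given by the `U v` form a graph curve of `G`: two lines meet, in one point,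
exactly when the vertices are adjacent, no point is on three of the lines, and the lines span -/
structure IsGraphCurve {k : Type*} [Field k] {N : ℕ} (G : SimpleGraph V)
    (U : V → Submodule k (Fin N → k)) : Prop where
  /-- each `U v` is a line of the projective space -/
  line : ∀ v, Module.finrank k (U v) = 2
  /-- the lines of adjacent vertices meet in one point -/
  meet : ∀ u v, G.Adj u v → Module.finrank k (U u ⊓ U v : Submodule k (Fin N → k)) = 1
  /-- the lines of distinct non-adjacent vertices do not meet -/
  disj : ∀ u v, u ≠ v → ¬ G.Adj u v → U u ⊓ U v = ⊥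
  /-- no point lies on three of the lines -/
  noTriple : ∀ u v w, u ≠ v → u ≠ w → v ≠ w → U u ⊓ U v ⊓ U w = ⊥
  /-- the lines span the space -/
  span : ⨆ v, U v = ⊤

end Graph

end Pool.Agent.V1149.GB
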