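import Pool.Agent.V1149.GB.Core
import Pool.Agent.V1149.GB.Defs

/-!
# The points of a graph curve, and the relations among its lines
-/

namespace Pool.Agent.V1149.GB

open Relation

set_option linter.unusedSectionVars false

open scoped Classical

section Curve

variable {V : Type*} [Fintype V] [DecidableEq V] {k : Type*} [Field k] {N : ℕ}

/-- a chosen non-zero vector of a subspace -/
noncomputable def gen (S : Submodule k (Fin N → k)) : Fin N → k :=
  if h : ∃ x ∈ S, x ≠ 0 then h.choose else 0

theorem gen_mem (S : Submodule k (Fin N → k)) : gen S ∈ S := by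
  unfold gen
  split_ifs with h
  · exact h.choose_spec.1
  · exact S.zero_mem

theorem gen_ne (S : Submodule k (Fin N → k)) (h : S ≠ ⊥) : gen S ≠ 0 := by
  have h' : ∃ x ∈ S, x ≠ 0 := (Submodule.ne_bot_iff S).1 h
  unfold gen
  rw [dif_pos h']
  exact h'.choose_spec.2

/-- the point on the edge `ab` -/
noncomputable def pt (U : V → Submodule k (Fin N → k)) (a b : V) : Fin N → k := gen (U a ⊓ U b)

variable {G : SimpleGraph V} {U : V → Submodule k (Fin N → k)}

theorem pt_symm (a b : V) : pt U a b = pt U b a := by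
  rw [pt, pt, inf_comm]

theorem pt_mem (a b : V) : pt U a b ∈ U a := (gen_mem (U a ⊓ U b)).1

theorem pt_mem' (a b : V) : pt U a b ∈ U b := (gen_mem (U a ⊓ U b)).2

theorem pt_ne (hU : IsGraphCurve G U) {a b : V} (h : G.Adj a b) : pt U a b ≠ 0 := by
  refine gen_ne _ (fun h0 => ?_)
  have := hU.meet a b h
  rw [h0] at this
  simp at this

theorem conf (hU : IsGraphCurve G U) : Conf k G (pt U) where
  symm := pt_symm
  nz a b h := pt_ne hU h
  ind := by
    intro a b b' hb hb' hne s t hst
    have key : ∀ (b b' : V), G.Adj a b → G.Adj a b' → b ≠ b' → ∀ s t : k,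
        s • pt U a b + t • pt U a b' = 0 → s = 0 := by
      intro b b' hb hb' hne s t hst
      by_contra hs
      have h1 : pt U a b = (-(s⁻¹ * t)) • pt U a b' := by
        have h2 : s • pt U a b = - (t • pt U a b') := eq_neg_of_add_eq_zero_left hst
        have h3 : s⁻¹ • (s • pt U a b) = s⁻¹ • (- (t • pt U a b')) := by rw [h2]
        rw [smul_smul, inv_mul_cancel₀ hs, one_smul, smul_neg, smul_smul] at h3
        rw [h3, neg_smul]
      have h2 : pt U a b ∈ U a ⊓ U b ⊓ U b' := by
        refine ⟨⟨pt_mem a b, pt_mem' a b⟩, ?_⟩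
        rw [h1]
        exact Submodule.smul_mem _ _ (pt_mem' a b')
      rw [hU.noTriple a b b' hb.ne hb'.ne hne] at h2
      exact pt_ne hU hb h2
    refine ⟨key b b' hb hb' hne s t hst, key b' b hb' hb (Ne.symm hne) t s ?_⟩
    rw [add_comm]
    exact hst

/-- the oriented ends of an edge -/
noncomputable def ends (e : Sym2 V) : V × V := Quot.out e

theorem ends_spec (e : Sym2 V) : s((ends e).1, (ends e).2) = e := Quot.out_eq e

theorem ends_or (a b : V) : ends s(a, b) = (a, b) ∨ ends s(a, b) = (b, a) := by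
  have h := ends_spec s(a, b)
  rw [Sym2.eq_iff] at h
  rcases h with h | h
  · left; exact Prod.ext h.1 h.2
  · right; exact Prod.ext h.1 h.2

/-- the antisymmetric function given by a function on the edges -/
noncomputable def anti (G : SimpleGraph V) (c : G.edgeSet → k) (a b : V) : k :=
  if h : G.Adj a b then (if ends s(a, b) = (a, b) then c ⟨s(a, b), h⟩ else - c ⟨s(a, b), h⟩)
  else 0

theorem anti_antisymm (c : G.edgeSet → k) (a b : V) : anti G c a b = - anti G c b a := by
  unfold anti
  by_cases h : G.Adj a b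
  · rw [dif_pos h, dif_pos h.symm]
    have h1 : (⟨s(b, a), h.symm⟩ : G.edgeSet) = ⟨s(a, b), h⟩ := Subtype.ext Sym2.eq_swap
    have h2 : ends s(b, a) = ends s(a, b) := by rw [Sym2.eq_swap]
    rw [h1, h2]
    have hne : a ≠ b := h.ne
    rcases ends_or a b with h3 | h3
    · rw [h3, if_pos rfl, if_neg (fun e => hne (Prod.mk.injEq _ _ _ _ ▸ e).1), neg_neg]
    · rw [h3, if_neg (fun e => hne (Prod.mk.injEq _ _ _ _ ▸ e).2), if_pos rfl]
  · rw [dif_neg h, dif_neg (fun h' => h h'.symm), neg_zero]

theorem anti_supp (c : G.edgeSet → k) (a b : V) (h : anti G c a b ≠ 0) : G.Adj a b := by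
  by_contra hcon
  unfold anti at h
  rw [dif_neg hcon] at h
  exact h rfl

theorem anti_zero (c : G.edgeSet → k) (h : ∀ a b, anti G c a b = 0) : c = 0 := by
  funext e
  obtain ⟨e, he⟩ := e
  induction e using Sym2.ind with
  | _ a b =>
    have h1 := h a b
    unfold anti at h1
    have hab : G.Adj a b := he
    rw [dif_pos hab] at h1
    split_ifs at h1 with h2
    · exact h1
    · exact neg_eq_zero.1 h1

theorem swap_sum [CharZero k] {M : Type*} [AddCommGroup M] [Module k M] (F : V → V → M)
    (h : ∀ a b, F a b = - F b a) : ∑ a, ∑ b, F a b = 0 := by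
  have h1 : ∑ a, ∑ b, F a b = - ∑ a, ∑ b, F a b := by
    conv_lhs => rw [Finset.sum_comm]
    rw [← Finset.sum_neg_distrib]
    refine Finset.sum_congr rfl (fun a _ => ?_)
    rw [← Finset.sum_neg_distrib]
    refine Finset.sum_congr rfl (fun b _ => ?_)
    exact h b a
  have h2 : (2 : k) • ∑ a, ∑ b, F a b = 0 := by
    rw [two_smul]
    nth_rw 1 [h1]
    exact neg_add_cancel _
  exact (smul_eq_zero.1 h2).resolve_left two_ne_zero

/-- the sum of vectors of the lines -/
noncomputable def sumMap (U : V → Submodule k (Fin N → k)) : (∀ v, U v) →ₗ[k] (Fin N → k) where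
  toFun u := ∑ v, (u v : Fin N → k)
  map_add' u u' := by
    simp [Finset.sum_add_distrib]
  map_smul' c u := by
    simp [Finset.smul_sum]

theorem sumMap_surj (hU : IsGraphCurve G U) : Function.Surjective (sumMap U) := by
  rw [← LinearMap.range_eq_top, eq_top_iff, ← hU.span, iSup_le_iff]
  intro v y hy
  refine ⟨Pi.single v ⟨y, hy⟩, ?_⟩
  simp only [sumMap, LinearMap.coe_mk, AddHom.coe_mk]
  rw [Finset.sum_eq_single v]
  · simp
  · intro b _ hb
    simp [Pi.single_eq_of_ne hb]
  · intro h
    exact absurd (Finset.mem_univ _) h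

/-- the relations given by the edges -/
noncomputable def relMap (G : SimpleGraph V) (U : V → Submodule k (Fin N → k)) :
    (G.edgeSet → k) →ₗ[k] (∀ v, U v) where
  toFun c := fun a => ∑ b, anti G c a b • (⟨pt U a b, pt_mem a b⟩ : U a)
  map_add' c c' := by
    funext a
    apply Subtype.ext
    simp only [AddSubmonoidClass.coe_finsetSum, Submodule.coe_smul,
      Pi.add_apply, ← Finset.sum_add_distrib, ← add_smul]
    refine Finset.sum_congr rfl (fun b _ => ?_)
    congr 1
    unfold anti
    split_ifs <;> simp [add_comm]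
  map_smul' c c' := by
    funext a
    apply Subtype.ext
    simp only [AddSubmonoidClass.coe_finsetSum, Submodule.coe_smul, RingHom.id_apply,
      Pi.smul_apply, Finset.smul_sum, smul_smul]
    refine Finset.sum_congr rfl (fun b _ => ?_)
    congr 1
    unfold anti
    split_ifs <;> simp

theorem relMap_ker [CharZero k] : LinearMap.range (relMap G U) ≤ LinearMap.ker (sumMap U) := by
  rintro u ⟨c, rfl⟩
  rw [LinearMap.mem_ker]
  simp only [sumMap, relMap, LinearMap.coe_mk, AddHom.coe_mk, AddSubmonoidClass.coe_finsetSum,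
    Submodule.coe_smul]
  refine swap_sum (k := k) _ (fun a b => ?_)
  rw [anti_antisymm, neg_smul, pt_symm]

theorem relMap_inj (hU : IsGraphCurve G U) (hc : Conn G Finset.univ)
    (hdeg : ∀ a, degK G Finset.univ a ≤ 3) {z : V} (hz : degK G Finset.univ z ≤ 2) :
    Function.Injective (relMap G U) := by
  rw [injective_iff_map_eq_zero]
  intro c h
  have h0 : ∀ a, ∑ b, anti G c a b • pt U a b = 0 := by
    intro a
    have h1 := congrFun h a
    have h2 := congrArg Subtype.val h1
    simpa [relMap] using h2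
  have hin : ∀ a b, anti G c a b ≠ 0 → inK G Finset.univ a b := fun a b hab =>
    ⟨Finset.mem_univ _, Finset.mem_univ _, anti_supp c a b hab⟩
  apply anti_zero
  have key : ∀ a, ReflTransGen (inK G Finset.univ) z a → ∀ b, anti G c a b = 0 := by
    intro a ha
    induction ha with
    | refl =>
      exact two_zero (conf hU) z _ (fun b hb => anti_supp c z b hb)
        ((card_supp_le _ (hin z)).trans hz) (h0 z)
    | @tail b a _ hba ih =>
      refine two_zero (conf hU) a _ (fun b hb => anti_supp c a b hb) ?_ (h0 a)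
      have h1 : anti G c a b = 0 := by rw [anti_antisymm, ih, neg_zero]
      have := card_supp_lt _ (hin a) hba.symm' h1
      have := hdeg a
      omega
  intro a
  exact key a (hc z (Finset.mem_univ _) a (Finset.mem_univ _))

/-- the relations among the lines are spanned by those of the edges -/
theorem rel [CharZero k] (hU : IsGraphCurve G U) (hc : Conn G Finset.univ)
    (hdeg : ∀ a, degK G Finset.univ a ≤ 3) {z : V} (hz : degK G Finset.univ z ≤ 2)
    (hN : N + Nat.card G.edgeSet = 2 * Fintype.card V) (u : ∀ v, U v)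
    (hu : ∑ v, (u v : Fin N → k) = 0) :
    ∃ c : V → V → k, (∀ a b, c a b ≠ 0 → inK G Finset.univ a b) ∧ (∀ a b, c a b = - c b a) ∧
      ∀ a, ∑ b, c a b • pt U a b = (u a : Fin N → k) := by
  have hfr : Module.finrank k (∀ v, U v) = 2 * Fintype.card V := by
    rw [Module.finrank_pi_fintype]
    rw [Finset.sum_congr rfl (fun v _ => hU.line v)]
    rw [Finset.sum_const, smul_eq_mul, mul_comm]
    rfl
  have hrn := LinearMap.finrank_range_add_finrank_ker (sumMap U)
  rw [LinearMap.range_eq_top.2 (sumMap_surj hU), finrank_top, hfr] at hrn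
  have hN' : Module.finrank k (Fin N → k) = N := by simp
  rw [hN'] at hrn
  have hE : Module.finrank k (G.edgeSet → k) = Nat.card G.edgeSet := by
    rw [Module.finrank_fintype_fun_eq_card, Nat.card_eq_fintype_card]
  have h1 : Module.finrank k (LinearMap.range (relMap G U)) =
      Module.finrank k (LinearMap.ker (sumMap U)) := by
    rw [LinearMap.finrank_range_of_inj (relMap_inj hU hc hdeg hz), hE]
    omega
  have h2 := Submodule.eq_of_le_of_finrank_eq relMap_ker h1
  have h3 : u ∈ LinearMap.range (relMap G U) := by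
    rw [h2, LinearMap.mem_ker]
    exact hu
  obtain ⟨c, hcu⟩ := h3
  refine ⟨anti G c, fun a b hab => ⟨Finset.mem_univ _, Finset.mem_univ _, anti_supp c a b hab⟩,
    anti_antisymm c, fun a => ?_⟩
  have h1 := congrFun hcu a
  have h2 := congrArg Subtype.val h1
  simpa [relMap] using h2

theorem PK_univ [CharZero k] (hU : IsGraphCurve G U) (hc : Conn G Finset.univ)
    (hdeg : ∀ a, degK G Finset.univ a ≤ 3) {z : V} (hz : degK G Finset.univ z ≤ 2)
    (hN : N + Nat.card G.edgeSet = 2 * Fintype.card V) : PK k G (pt U) Finset.univ := by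
  intro d _ hd0
  obtain ⟨c, hc1, hc2, hc3⟩ := rel hU hc hdeg hz hN
    (fun a => ⟨∑ b, d a b • pt U a b, Submodule.sum_mem _ (fun b _ =>
      Submodule.smul_mem _ _ (pt_mem a b))⟩) hd0
  refine ⟨c, hc1, hc2, fun a => ?_⟩
  simp only [sub_smul, Finset.sum_sub_distrib]
  rw [hc3 a, sub_self]

/-- functionals on the lines that agree at the points of intersection extend -/
theorem ext_functional [CharZero k] (hU : IsGraphCurve G U) (hc : Conn G Finset.univ)
    (hdeg : ∀ a, degK G Finset.univ a ≤ 3) {z : V} (hz : degK G Finset.univ z ≤ 2)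
    (hN : N + Nat.card G.edgeSet = 2 * Fintype.card V) (φ : V → (Fin N → k) →ₗ[k] k)
    (hφ : ∀ a b, G.Adj a b → φ a (pt U a b) = φ b (pt U a b)) :
    ∃ ψ : (Fin N → k) →ₗ[k] k, ∀ v, ∀ y ∈ U v, ψ y = φ v y := by
  let Φ : (∀ v, U v) →ₗ[k] k :=
    { toFun := fun u => ∑ v, φ v (u v)
      map_add' := fun u u' => by simp [Finset.sum_add_distrib]
      map_smul' := fun c u => by simp [Finset.mul_sum] }
  have hker : LinearMap.ker (sumMap U) ≤ LinearMap.ker Φ := by
    intro u hu
    rw [LinearMap.mem_ker] at hu ⊢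
    obtain ⟨c, hc1, hc2, hc3⟩ := rel hU hc hdeg hz hN u hu
    change ∑ v, φ v (u v) = 0
    have h1 : ∀ v, φ v (u v) = ∑ b, c v b * φ v (pt U v b) := by
      intro v
      rw [← hc3 v, map_sum]
      simp
    simp only [h1]
    refine swap_sum (k := k) _ (fun a b => ?_)
    by_cases h : c a b = 0
    · have h' : c b a = 0 := by rw [hc2, h, neg_zero]
      rw [h, h']
      simp
    · rw [hφ a b (hc1 a b h).2.2, hc2 a b, pt_symm a b]
      ring
  let σ := (sumMap U).quotKerEquivOfSurjective (sumMap_surj hU)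
  refine ⟨((LinearMap.ker (sumMap U)).liftQ Φ hker) ∘ₗ σ.symm.toLinearMap, fun v y hy => ?_⟩
  have h1 : sumMap U (Pi.single v ⟨y, hy⟩) = y := by
    simp only [sumMap, LinearMap.coe_mk, AddHom.coe_mk]
    rw [Finset.sum_eq_single v]
    · simp
    · intro b _ hb
      simp [Pi.single_eq_of_ne hb]
    · intro h
      exact absurd (Finset.mem_univ _) h
  have h2 : σ.symm y = Submodule.Quotient.mk (Pi.single v ⟨y, hy⟩) := by
    rw [LinearEquiv.symm_apply_eq]
    exact h1.symm
  rw [LinearMap.comp_apply, LinearEquiv.coe_coe, h2]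
  rw [Submodule.liftQ_apply]
  change ∑ v', φ v' ((Pi.single v (⟨y, hy⟩ : U v) : ∀ v, U v) v') = φ v y
  rw [Finset.sum_eq_single v]
  · simp
  · intro b _ hb
    simp [Pi.single_eq_of_ne hb]
  · intro h
    exact absurd (Finset.mem_univ _) h

end Curve

end Pool.Agent.V1149.GB
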