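import Pool.Agent.V1149.GB.Defs

/-!
# The graph and the lines of the counterexample
-/

namespace Pool.Agent.V1149.GB.Ex

open MvPolynomial Pool.Agent.V1149.GB

/-- the edges: the triangle `0 1 2`, the path `0 3 4 1`, and the pendant edge `2 5` -/
def adjB (u v : Fin 6) : Bool :=
  (u, v) ∈ ([(0, 1), (0, 2), (1, 2), (0, 3), (3, 4), (4, 1), (2, 5)] : List (Fin 6 × Fin 6)) ∨
  (v, u) ∈ ([(0, 1), (0, 2), (1, 2), (0, 3), (3, 4), (4, 1), (2, 5)] : List (Fin 6 × Fin 6))

/-- the graph -/
def G : SimpleGraph (Fin 6) where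
  Adj u v := adjB u v = true
  symm := ⟨by decide⟩
  loopless := ⟨by decide⟩

instance : DecidableRel G.Adj := fun u v => inferInstanceAs (Decidable (adjB u v = true))

/-- positions of the vertices -/
def pos : Fin 6 → ℤ × ℤ := ![(0, 0), (4, 0), (2, 2), (0, -4), (4, -4), (2, 5)]

/-- twice the signed area -/
def cr (a b c : ℤ × ℤ) : ℤ := (b.1 - a.1) * (c.2 - a.2) - (b.2 - a.2) * (c.1 - a.1)

theorem check_vertex : ∀ u v w : Fin 6, G.Adj u v → w ≠ u → w ≠ v →
    cr (pos u) (pos v) (pos w) ≠ 0 := by decide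

theorem check_share : ∀ u v y : Fin 6, G.Adj u v → G.Adj u y → v ≠ y →
    cr (pos u) (pos v) (pos y) ≠ 0 := by decide

theorem check_disj : ∀ u v x y : Fin 6, G.Adj u v → G.Adj x y → u ≠ x → u ≠ y → v ≠ x → v ≠ y →
    0 < cr (pos u) (pos v) (pos x) * cr (pos u) (pos v) (pos y) ∨
    0 < cr (pos x) (pos y) (pos u) * cr (pos x) (pos y) (pos v) := by decide


/-- real version -/
def crR (a b c : ℝ × ℝ) : ℝ := (b.1 - a.1) * (c.2 - a.2) - (b.2 - a.2) * (c.1 - a.1)

/-- real positions -/
def P (v : Fin 6) : ℝ × ℝ := (((pos v).1 : ℝ), ((pos v).2 : ℝ))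

theorem crR_P (u v w : Fin 6) : crR (P u) (P v) (P w) = (cr (pos u) (pos v) (pos w) : ℝ) := by
  simp [crR, P, cr]

theorem crR_seg {a b : ℝ × ℝ} (A B : ℝ × ℝ) {p : ℝ × ℝ} (hp : p ∈ segment ℝ a b) :
    ∃ s t : ℝ, 0 ≤ s ∧ 0 ≤ t ∧ s + t = 1 ∧ p = s • a + t • b ∧
      crR A B p = s * crR A B a + t * crR A B b := by
  obtain ⟨s, t, hs, ht, hst, rfl⟩ := hp
  refine ⟨s, t, hs, ht, hst, rfl, ?_⟩
  simp only [crR, Prod.fst_add, Prod.snd_add, Prod.smul_fst, Prod.smul_snd, smul_eq_mul]
  have : s = 1 - t := by linarith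
  subst this
  ring

theorem crR_self {A B p : ℝ × ℝ} (hp : p ∈ segment ℝ A B) : crR A B p = 0 := by
  obtain ⟨s, t, hs, ht, hst, rfl, h⟩ := crR_seg A B hp
  rw [h]
  simp only [crR]
  ring

theorem seg_disj {A B a b p : ℝ × ℝ} (h : 0 < crR A B a * crR A B b)
    (h1 : p ∈ segment ℝ A B) (h2 : p ∈ segment ℝ a b) : False := by
  obtain ⟨s, t, hs, ht, hst, -, e⟩ := crR_seg A B h2
  rw [crR_self h1] at e
  rcases pos_and_pos_or_neg_and_neg_of_mul_pos h with ⟨h3, h4⟩ | ⟨h3, h4⟩
  · rcases hs.lt_or_eq with h5 | h5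
    · nlinarith [mul_pos h5 h3, mul_nonneg ht h4.le]
    · have : t = 1 := by linarith
      rw [← h5, this] at e
      linarith
  · rcases hs.lt_or_eq with h5 | h5
    · nlinarith [mul_neg_of_pos_of_neg h5 h3, mul_nonpos_of_nonneg_of_nonpos ht h4.le]
    · have : t = 1 := by linarith
      rw [← h5, this] at e
      linarith

theorem seg_share {A B b p : ℝ × ℝ} (h : crR A B b ≠ 0)
    (h1 : p ∈ segment ℝ A B) (h2 : p ∈ segment ℝ A b) : p = A := by
  obtain ⟨s, t, hs, ht, hst, e', e⟩ := crR_seg A B h2
  rw [crR_self h1] at e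
  have h0 : crR A B A = 0 := by simp only [crR]; ring
  rw [h0] at e
  have ht0 : t = 0 := by
    have : t * crR A B b = 0 := by linarith
    rcases mul_eq_zero.1 this with h | h'
    · exact h
    · exact absurd h' h
  have hs1 : s = 1 := by linarith
  rw [e', ht0, hs1]
  simp

theorem P_inj : Function.Injective P := by
  intro u v h
  have h1 : (pos u).1 = (pos v).1 := by
    have := congrArg Prod.fst h
    simpa [P] using this
  have h2 : (pos u).2 = (pos v).2 := by
    have := congrArg Prod.snd h
    simpa [P] using this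
  have : ∀ u v : Fin 6, (pos u).1 = (pos v).1 → (pos u).2 = (pos v).2 → u = v := by decide
  exact this u v h1 h2

theorem share {u v y : Fin 6} (h1 : G.Adj u v) (h2 : G.Adj u y) (hne : v ≠ y) {p : ℝ × ℝ}
    (hp : p ∈ segment ℝ (P u) (P v)) (hq : p ∈ segment ℝ (P u) (P y)) : p = P u := by
  refine seg_share ?_ hp hq
  rw [crR_P]
  exact_mod_cast check_share u v y h1 h2 hne

theorem planar : IsPlanar G := by
  refine ⟨P, P_inj, ?_, ?_⟩
  · intro u v w huv hw
    by_contra hcon
    push Not at hcon
    have h1 := check_vertex u v w huv hcon.1 hcon.2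
    have h2 := crR_self hw
    rw [crR_P] at h2
    exact h1 (by exact_mod_cast h2)
  · intro u v x y huv hxy hne p hp hq
    have hne' : ¬ (u = x ∧ v = y) := fun h => hne (by rw [h.1, h.2])
    have hne'' : ¬ (u = y ∧ v = x) := fun h => hne (by rw [h.1, h.2, Sym2.eq_swap])
    by_cases hux : u = x
    · subst hux
      exact ⟨u, Or.inl rfl, Or.inl rfl, share huv hxy (fun h => hne' ⟨rfl, h⟩) hp hq⟩
    by_cases huy : u = y
    · subst huy
      rw [segment_symm] at hq
      exact ⟨u, Or.inl rfl, Or.inr rfl, share huv hxy.symm (fun h => hne'' ⟨rfl, h⟩) hp hq⟩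
    by_cases hvx : v = x
    · subst hvx
      rw [segment_symm] at hp
      exact ⟨v, Or.inr rfl, Or.inl rfl, share huv.symm hxy (fun h => hne'' ⟨h, rfl⟩) hp hq⟩
    by_cases hvy : v = y
    · subst hvy
      rw [segment_symm] at hp hq
      exact ⟨v, Or.inr rfl, Or.inr rfl, share huv.symm hxy.symm (fun h => hne' ⟨h, rfl⟩) hp hq⟩
    exfalso
    rcases check_disj u v x y huv hxy hux huy hvx hvy with h | h
    · refine seg_disj (A := P u) (B := P v) (a := P x) (b := P y) ?_ hp hq
      rw [crR_P, crR_P]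
      exact_mod_cast h
    · refine seg_disj (A := P x) (B := P y) (a := P u) (b := P v) ?_ hq hp
      rw [crR_P, crR_P]
      exact_mod_cast h

theorem connected : G.Connected := by
  rw [SimpleGraph.connected_iff_exists_forall_reachable]
  refine ⟨0, ?_⟩
  have h1 : G.Reachable 0 1 := SimpleGraph.Adj.reachable (by decide : G.Adj 0 1)
  have h2 : G.Reachable 0 2 := SimpleGraph.Adj.reachable (by decide : G.Adj 0 2)
  have h3 : G.Reachable 0 3 := SimpleGraph.Adj.reachable (by decide : G.Adj 0 3)
  have h4 : G.Reachable 3 4 := SimpleGraph.Adj.reachable (by decide : G.Adj 3 4)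
  have h5 : G.Reachable 2 5 := SimpleGraph.Adj.reachable (by decide : G.Adj 2 5)
  intro w
  fin_cases w
  · exact SimpleGraph.Reachable.refl _
  · exact h1
  · exact h2
  · exact h3
  · exact h3.trans h4
  · exact h2.trans h5

theorem degree_le (v : Fin 6) : Nat.card (G.neighborSet v) ≤ 3 := by
  rw [Nat.card_eq_fintype_card]
  revert v
  decide

theorem card_edges : Nat.card G.edgeSet = 7 := by
  rw [Nat.card_eq_fintype_card]
  decide

theorem genus_eq : genus G = 2 := by
  rw [genus, card_edges]
  simp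

theorem count_check : ∀ A : Finset (Fin 6), A.Nonempty →
    (Finset.univ.filter (fun p : Fin 6 × Fin 6 => adjB p.1 p.2 = true ∧ p.1 ∈ A ∧ p.2 ∈ A)).card + 3
      ≤ 3 * A.card := by decide

theorem subgraphCond : SubgraphCond G := by
  classical
  intro H hH
  have hne : H.verts.toFinset.Nonempty := by
    obtain ⟨x, hx⟩ := hH.nonempty
    exact ⟨x, by simpa using hx⟩
  have h1 := count_check _ hne
  have h2 : Fintype.card H.coe.Dart ≤
      (Finset.univ.filter (fun p : Fin 6 × Fin 6 => adjB p.1 p.2 = true ∧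
        p.1 ∈ H.verts.toFinset ∧ p.2 ∈ H.verts.toFinset)).card := by
    rw [← Finset.card_univ]
    refine Finset.card_le_card_of_injOn (fun d => (d.fst.1, d.snd.1)) ?_ ?_
    · intro d _
      rw [Finset.mem_coe, Finset.mem_filter]
      refine ⟨Finset.mem_univ _, ?_, by simp, by simp⟩
      have := d.adj
      rw [SimpleGraph.Subgraph.coe_adj] at this
      exact H.adj_sub this
    · intro d _ d' _ h
      simp only [Prod.mk.injEq] at h
      exact SimpleGraph.Dart.ext _ _ (Prod.ext (Subtype.ext h.1) (Subtype.ext h.2))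
  rw [SimpleGraph.dart_card_eq_twice_card_edges] at h2
  have h3 : Nat.card H.coe.edgeSet = H.coe.edgeFinset.card := by
    rw [Nat.card_eq_fintype_card, SimpleGraph.edgeFinset_card]
  have h4 : Nat.card H.verts = H.verts.toFinset.card := by
    rw [Nat.card_eq_fintype_card, Set.toFinset_card]
  rw [genus, h3, h4]
  omega

theorem contained : (⊤ : SimpleGraph (Fin 3)).IsContained G := by
  have h36 : 3 ≤ 6 := by norm_num
  refine ⟨⟨⟨Fin.castLE h36, ?_⟩, Fin.castLE_injective h36⟩⟩
  intro a b
  decide +revert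

theorem girth_eq : G.girth = 3 := by
  have h0 : (⊤ : SimpleGraph (Fin 3)).girth = 3 := SimpleGraph.girth_top (by simp)
  have h1 : ¬ (⊤ : SimpleGraph (Fin 3)).IsAcyclic := by
    rw [← SimpleGraph.girth_eq_zero, h0]
    norm_num
  have h2 := SimpleGraph.IsContained.girth_le contained h1
  rw [h0] at h2
  have h3 : ¬ G.IsAcyclic := fun h => h1 (h.comap contained.some.toHom contained.some.injective)
  have := SimpleGraph.three_le_girth h3
  omega

/-- the triangle as a subgraph -/
def tri : G.Subgraph := (⊤ : G.Subgraph).induce {0, 1, 2}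

theorem cycleGraph_three : SimpleGraph.cycleGraph 3 = ⊤ := SimpleGraph.cycleGraph_three_eq_top

theorem numCycles_eq : numCycles G 3 = 1 := by
  classical
  rw [numCycles, Nat.card_eq_one_iff_unique]
  have key : ∀ a b c : Fin 6, G.Adj a b → G.Adj a c → G.Adj b c →
      ({a, b, c} : Finset (Fin 6)) = {0, 1, 2} := by decide
  constructor
  · constructor
    have main : ∀ H : G.Subgraph, Nonempty (H.coe ≃g SimpleGraph.cycleGraph 3) → H = tri := by
      rintro H ⟨e⟩
      rw [cycleGraph_three] at e
      have hadj : ∀ i j : Fin 3, i ≠ j → H.Adj (e.symm i).1 (e.symm j).1 := by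
        intro i j hij
        have : H.coe.Adj (e.symm i) (e.symm j) := by
          rw [e.symm.map_adj_iff]
          exact hij
        exact this
      have hset := key _ _ _ (H.adj_sub (hadj 0 1 (by decide))) (H.adj_sub (hadj 0 2 (by decide)))
        (H.adj_sub (hadj 1 2 (by decide)))
      have hverts : H.verts = {0, 1, 2} := by
        have h1 : H.verts = ↑({(e.symm 0).1, (e.symm 1).1, (e.symm 2).1} : Finset (Fin 6)) := by
          ext x
          simp only [Finset.coe_insert, Finset.coe_singleton, Set.mem_insert_iff,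
            Set.mem_singleton_iff]
          constructor
          · intro hx
            obtain ⟨i, hi⟩ := e.symm.surjective ⟨x, hx⟩
            have hx' : x = (e.symm i).1 := by rw [hi]
            rw [hx']
            fin_cases i
            · exact Or.inl rfl
            · exact Or.inr (Or.inl rfl)
            · exact Or.inr (Or.inr rfl)
          · rintro (rfl | rfl | rfl)
            · exact (e.symm 0).2
            · exact (e.symm 1).2
            · exact (e.symm 2).2
        rw [h1, hset]
        simp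
      apply SimpleGraph.Subgraph.ext
      · rw [hverts]
        rfl
      · funext a b
        apply propext
        constructor
        · intro h
          have ha := H.edge_vert h
          have hb := H.edge_vert h.symm
          rw [hverts] at ha hb
          exact ⟨ha, hb, H.adj_sub h⟩
        · rintro ⟨ha, hb, hab⟩
          have hab' : G.Adj a b := hab
          rw [← hverts] at ha hb
          obtain ⟨i, hi⟩ := e.symm.surjective ⟨a, ha⟩
          obtain ⟨j, hj⟩ := e.symm.surjective ⟨b, hb⟩
          have hij : i ≠ j := by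
            rintro rfl
            rw [hi] at hj
            have : a = b := congrArg Subtype.val hj
            exact hab'.ne this
          have := hadj i j hij
          rw [hi, hj] at this
          exact this
    rintro ⟨H, hH⟩ ⟨H', hH'⟩
    exact Subtype.ext ((main H hH).trans (main H' hH').symm)
  · refine ⟨⟨tri, ?_⟩⟩
    rw [cycleGraph_three]
    refine ⟨⟨⟨fun x => if x.1 = 0 then 0 else if x.1 = 1 then 1 else 2,
      fun i => ⟨Fin.castLE (by norm_num) i, ?_⟩, ?_, ?_⟩, ?_⟩⟩
    · fin_cases i <;> simp [tri]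
    · rintro ⟨x, hx⟩
      have hx' : x = 0 ∨ x = 1 ∨ x = 2 := by simpa [tri] using hx
      rcases hx' with rfl | rfl | rfl <;> rfl
    · intro i
      fin_cases i <;> rfl
    · rintro ⟨x, hx⟩ ⟨y, hy⟩
      have hx' : x = 0 ∨ x = 1 ∨ x = 2 := by simpa [tri] using hx
      have hy' : y = 0 ∨ y = 1 ∨ y = 2 := by simpa [tri] using hy
      have hadj : ∀ x y : Fin 6, (x = 0 ∨ x = 1 ∨ x = 2) → (y = 0 ∨ y = 1 ∨ y = 2) →
        ((⊤ : SimpleGraph (Fin 3)).Adj (if x = 0 then 0 else if x = 1 then 1 else 2)
          (if y = 0 then 0 else if y = 1 then 1 else 2) ↔ G.Adj x y) := by decide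
      have h1 := hadj x y hx' hy'
      rw [SimpleGraph.Subgraph.coe_adj]
      constructor
      · intro h
        exact ⟨hx, hy, h1.1 h⟩
      · intro h
        exact h1.2 (tri.adj_sub h)

end Pool.Agent.V1149.GB.Ex
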