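import Pool.Agent.V1149.GB.Ex

/-!
# The lines of the counterexample
-/

namespace Pool.Agent.V1149.GB.Ex

open MvPolynomial Pool.Agent.V1149.GB

variable {k : Type*} [Field k]

/-- first point on each line -/
def p1 : Fin 6 → Fin 5 → k :=
  ![![1, 0, 0, 0, 0], ![1, 0, 0, 0, 0], ![1, -1, 0, 0, 0], ![0, 0, 1, 0, 0], ![0, 1, 0, 0, 0],
    ![2, -1, -1, 0, 0]]

/-- second point on each line -/
def p2 : Fin 6 → Fin 5 → k :=
  ![![0, 0, 1, 0, 0], ![0, 1, 0, 0, 0], ![1, 0, -1, 0, 0], ![0, 0, 0, 1, 0], ![0, 0, 0, 1, 0],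
    ![0, 0, 0, 0, 1]]

/-- the six lines -/
def U (v : Fin 6) : Submodule k (Fin 5 → k) := Submodule.span k {p1 v, p2 v}

/-- the equations of the lines -/
def E (v : Fin 6) (x : Fin 5 → k) : Prop :=
  ![x 1 = 0 ∧ x 3 = 0 ∧ x 4 = 0, x 2 = 0 ∧ x 3 = 0 ∧ x 4 = 0,
    x 0 + x 1 + x 2 = 0 ∧ x 3 = 0 ∧ x 4 = 0, x 0 = 0 ∧ x 1 = 0 ∧ x 4 = 0,
    x 0 = 0 ∧ x 2 = 0 ∧ x 4 = 0, x 1 = x 2 ∧ x 0 = - 2 * x 1 ∧ x 3 = 0] v

theorem mem_U (v : Fin 6) (x : Fin 5 → k) : x ∈ U v ↔ E v x := by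
  rw [U, Submodule.mem_span_pair]
  constructor
  · rintro ⟨a, b, rfl⟩
    fin_cases v <;> simp [E, p1, p2]
    all_goals ring
  · intro h
    fin_cases v
    · obtain ⟨h1, h2, h3⟩ : x 1 = 0 ∧ x 3 = 0 ∧ x 4 = 0 := h
      refine ⟨x 0, x 2, ?_⟩
      funext i
      fin_cases i <;> simp [p1, p2, h1, h2, h3]
    · obtain ⟨h1, h2, h3⟩ : x 2 = 0 ∧ x 3 = 0 ∧ x 4 = 0 := h
      refine ⟨x 0, x 1, ?_⟩
      funext i
      fin_cases i <;> simp [p1, p2, h1, h2, h3]
    · obtain ⟨h1, h2, h3⟩ : x 0 + x 1 + x 2 = 0 ∧ x 3 = 0 ∧ x 4 = 0 := h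
      refine ⟨- x 1, - x 2, ?_⟩
      funext i
      fin_cases i <;> simp [p1, p2, h2, h3]
      linear_combination - h1
    · obtain ⟨h1, h2, h3⟩ : x 0 = 0 ∧ x 1 = 0 ∧ x 4 = 0 := h
      refine ⟨x 2, x 3, ?_⟩
      funext i
      fin_cases i <;> simp [p1, p2, h1, h2, h3]
    · obtain ⟨h1, h2, h3⟩ : x 0 = 0 ∧ x 2 = 0 ∧ x 4 = 0 := h
      refine ⟨x 1, x 3, ?_⟩
      funext i
      fin_cases i <;> simp [p1, p2, h1, h2, h3]
    · obtain ⟨h1, h2, h3⟩ : x 1 = x 2 ∧ x 0 = - 2 * x 1 ∧ x 3 = 0 := h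
      refine ⟨- x 1, x 4, ?_⟩
      funext i
      fin_cases i <;> simp [p1, p2, h2, h3, h1]
      ring

theorem indep (v : Fin 6) : LinearIndependent k ![p1 (k := k) v, p2 v] := by
  rw [LinearIndependent.pair_iff]
  intro s t h
  fin_cases v
  · have h1 := congrFun h 0
    have h2 := congrFun h 2
    simp [p1, p2] at h1 h2
    exact ⟨h1, h2⟩
  · have h1 := congrFun h 0
    have h2 := congrFun h 1
    simp [p1, p2] at h1 h2
    exact ⟨h1, h2⟩
  · have h1 := congrFun h 1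
    have h2 := congrFun h 2
    simp [p1, p2] at h1 h2
    exact ⟨h1, h2⟩
  · have h1 := congrFun h 2
    have h2 := congrFun h 3
    simp [p1, p2] at h1 h2
    exact ⟨h1, h2⟩
  · have h1 := congrFun h 1
    have h2 := congrFun h 3
    simp [p1, p2] at h1 h2
    exact ⟨h1, h2⟩
  · have h1 := congrFun h 1
    have h2 := congrFun h 4
    simp [p1, p2] at h1 h2
    exact ⟨h1, h2⟩

theorem finrank_U (v : Fin 6) : Module.finrank k (U (k := k) v) = 2 := by
  have h := finrank_span_eq_card (indep (k := k) v)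
  have h2 : Set.range ![p1 (k := k) v, p2 v] = {p1 v, p2 v} := by
    simp [Matrix.range_cons, Matrix.range_empty, Set.pair_comm]
  rw [h2] at h
  rw [U, h]
  simp

theorem one_of (A : Submodule k (Fin 5 → k)) (r : Fin 5 → k) (hr : r ≠ 0)
    (h : ∀ x, x ∈ A ↔ ∃ c : k, c • r = x) : Module.finrank k A = 1 := by
  have : A = Submodule.span k {r} := by
    ext x
    rw [h, Submodule.mem_span_singleton]
  rw [this]
  exact finrank_span_singleton hr

theorem mem_two (u v : Fin 6) (x : Fin 5 → k) : x ∈ U u ⊓ U v ↔ E u x ∧ E v x := by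
  rw [Submodule.mem_inf, mem_U, mem_U]

/-- the edges in one order -/
def edg : List (Fin 6 × Fin 6) := [(0, 1), (0, 2), (1, 2), (0, 3), (3, 4), (4, 1), (2, 5)]

/-- the meeting point -/
def r (u v : Fin 6) : Fin 5 → k :=
  if (u, v) = (0, 1) then ![1, 0, 0, 0, 0] else
  if (u, v) = (0, 2) then ![1, 0, -1, 0, 0] else
  if (u, v) = (1, 2) then ![1, -1, 0, 0, 0] else
  if (u, v) = (0, 3) then ![0, 0, 1, 0, 0] else
  if (u, v) = (3, 4) then ![0, 0, 0, 1, 0] else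
  if (u, v) = (4, 1) then ![0, 1, 0, 0, 0] else ![2, -1, -1, 0, 0]

theorem meet_one (h2 : (2 : k) ≠ 0) (u v : Fin 6) (h : (u, v) ∈ edg) :
    Module.finrank k (U u ⊓ U v : Submodule k (Fin 5 → k)) = 1 := by
  simp only [edg, List.mem_cons, Prod.mk.injEq, List.not_mem_nil, or_false] at h
  rcases h with ⟨rfl, rfl⟩ | ⟨rfl, rfl⟩ | ⟨rfl, rfl⟩ | ⟨rfl, rfl⟩ | ⟨rfl, rfl⟩ | ⟨rfl, rfl⟩ |
    ⟨rfl, rfl⟩
  · refine one_of _ ![1, 0, 0, 0, 0] (fun h => by simpa using congrFun h 0) ?_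
    intro x
    rw [mem_two]
    constructor
    · rintro ⟨⟨h1, h3, h4⟩, h5, -, -⟩
      refine ⟨x 0, ?_⟩
      funext i
      fin_cases i <;> simp [h1, h3, h4, h5]
    · rintro ⟨c, rfl⟩
      simp [E]
  · refine one_of _ ![1, 0, -1, 0, 0] (fun h => by simpa using congrFun h 0) ?_
    intro x
    rw [mem_two]
    constructor
    · rintro ⟨⟨h1, h3, h4⟩, h5, -, -⟩
      refine ⟨x 0, ?_⟩
      funext i
      fin_cases i <;> simp [h1, h3, h4]
      linear_combination h1 - h5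
    · rintro ⟨c, rfl⟩
      simp [E]
  · refine one_of _ ![1, -1, 0, 0, 0] (fun h => by simpa using congrFun h 0) ?_
    intro x
    rw [mem_two]
    constructor
    · rintro ⟨⟨h1, h3, h4⟩, h5, -, -⟩
      refine ⟨x 0, ?_⟩
      funext i
      fin_cases i <;> simp [h1, h3, h4]
      linear_combination h1 - h5
    · rintro ⟨c, rfl⟩
      simp [E]
  · refine one_of _ ![0, 0, 1, 0, 0] (fun h => by simpa using congrFun h 2) ?_
    intro x
    rw [mem_two]
    constructor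
    · rintro ⟨⟨h1, h3, h4⟩, h5, -, -⟩
      refine ⟨x 2, ?_⟩
      funext i
      fin_cases i <;> simp [h1, h3, h4, h5]
    · rintro ⟨c, rfl⟩
      simp [E]
  · refine one_of _ ![0, 0, 0, 1, 0] (fun h => by simpa using congrFun h 3) ?_
    intro x
    rw [mem_two]
    constructor
    · rintro ⟨⟨h1, h3, h4⟩, -, h5, -⟩
      refine ⟨x 3, ?_⟩
      funext i
      fin_cases i <;> simp [h1, h3, h4, h5]
    · rintro ⟨c, rfl⟩
      simp [E]
  · refine one_of _ ![0, 1, 0, 0, 0] (fun h => by simpa using congrFun h 1) ?_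
    intro x
    rw [mem_two]
    constructor
    · rintro ⟨⟨h1, h3, h4⟩, -, h5, -⟩
      refine ⟨x 1, ?_⟩
      funext i
      fin_cases i <;> simp [h1, h3, h4, h5]
    · rintro ⟨c, rfl⟩
      simp [E]
  · refine one_of _ ![2, -1, -1, 0, 0] (fun h => h2 (by simpa using congrFun h 0)) ?_
    intro x
    rw [mem_two]
    constructor
    · rintro ⟨⟨h1, h3, h4⟩, h5, h6, -⟩
      refine ⟨- x 1, ?_⟩
      funext i
      fin_cases i <;> simp [h3, h4, h6, ← h5]
      ring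
    · rintro ⟨c, rfl⟩
      simp [E]
      ring_nf
      simp

theorem disj_aux (_h3 : (3 : k) ≠ 0) (_h2 : (2 : k) ≠ 0) (u v : Fin 6) (huv : u < v)
    (h : adjB u v = false) (x : Fin 5 → k) (h1 : E u x) (h4 : E v x) : x = 0 := by
  have key : ∀ u v : Fin 6, u < v → adjB u v = false →
      (u, v) ∈ ([(0, 4), (0, 5), (1, 3), (1, 5), (2, 3), (2, 4), (3, 5), (4, 5)] :
      List (Fin 6 × Fin 6)) := by
    decide
  have hl := key u v huv h
  simp only [List.mem_cons, Prod.mk.injEq, List.not_mem_nil, or_false] at hl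
  rcases hl with ⟨rfl, rfl⟩ | ⟨rfl, rfl⟩ | ⟨rfl, rfl⟩ | ⟨rfl, rfl⟩ | ⟨rfl, rfl⟩ | ⟨rfl, rfl⟩ |
    ⟨rfl, rfl⟩ | ⟨rfl, rfl⟩
  all_goals
    simp only [E, Matrix.cons_val] at h1 h4
    obtain ⟨ha, hb, hc⟩ := h1
    obtain ⟨hd, he, hf⟩ := h4
    funext i
    fin_cases i <;> simp <;> grind

theorem disj (h3 : (3 : k) ≠ 0) (h2 : (2 : k) ≠ 0) (u v : Fin 6) (huv : u ≠ v)
    (h : ¬ G.Adj u v) : (U u ⊓ U v : Submodule k (Fin 5 → k)) = ⊥ := by
  have h' : adjB u v = false := by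
    cases hh : adjB u v
    · rfl
    · exact absurd hh h
  have h'' : adjB v u = false := by
    cases hh : adjB v u
    · rfl
    · exact absurd (show G.Adj v u from hh).symm h
  rw [Submodule.eq_bot_iff]
  intro x hx
  rw [mem_two] at hx
  rcases lt_or_gt_of_ne huv with h1 | h1
  · exact disj_aux h3 h2 u v h1 h' x hx.1 hx.2
  · exact disj_aux h3 h2 v u h1 h'' x hx.2 hx.1

theorem noTriple_aux (x : Fin 5 → k) (h0 : E 0 x) (h1 : E 1 x) (h2 : E 2 x) : x = 0 := by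
  simp only [E, Matrix.cons_val] at h0 h1 h2
  obtain ⟨ha, hb, hc⟩ := h0
  obtain ⟨hd, he, hf⟩ := h1
  obtain ⟨hg, hi, hj⟩ := h2
  funext i
  fin_cases i <;> simp <;> grind

theorem noTriple (h3 : (3 : k) ≠ 0) (h2 : (2 : k) ≠ 0) (u v w : Fin 6) (huv : u ≠ v)
    (huw : u ≠ w) (hvw : v ≠ w) : (U u ⊓ U v ⊓ U w : Submodule k (Fin 5 → k)) = ⊥ := by
  rw [Submodule.eq_bot_iff]
  intro x hx
  obtain ⟨⟨hu, hv⟩, hw⟩ := hx
  by_cases h1 : G.Adj u v
  · by_cases h4 : G.Adj u w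
    · by_cases h5 : G.Adj v w
      · have key : ∀ u v w : Fin 6, G.Adj u v → G.Adj u w → G.Adj v w →
          (0 = u ∨ 0 = v ∨ 0 = w) ∧ (1 = u ∨ 1 = v ∨ 1 = w) ∧ (2 = u ∨ 2 = v ∨ 2 = w) := by decide
        obtain ⟨k0, k1, k2⟩ := key u v w h1 h4 h5
        rw [SetLike.mem_coe, mem_U] at hu hv
        rw [SetLike.mem_coe, mem_U] at hw
        refine noTriple_aux x ?_ ?_ ?_
        · rcases k0 with h | h | h <;> rw [h] <;> assumption
        · rcases k1 with h | h | h <;> rw [h] <;> assumption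
        · rcases k2 with h | h | h <;> rw [h] <;> assumption
      · have : x ∈ U v ⊓ U w := ⟨hv, hw⟩
        rw [disj h3 h2 v w hvw h5] at this
        exact this
    · have : x ∈ U u ⊓ U w := ⟨hu, hw⟩
      rw [disj h3 h2 u w huw h4] at this
      exact this
  · have : x ∈ U u ⊓ U v := ⟨hu, hv⟩
    rw [disj h3 h2 u v huv h1] at this
    exact this

theorem span_top : ⨆ v, U (k := k) v = ⊤ := by
  rw [eq_top_iff]
  have key : ∀ i : Fin 5, (Pi.single i 1 : Fin 5 → k) ∈ ⨆ v, U (k := k) v := by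
    intro i
    fin_cases i
    · refine Submodule.mem_iSup_of_mem 0 ?_
      rw [mem_U]
      simp [E]
    · refine Submodule.mem_iSup_of_mem 1 ?_
      rw [mem_U]
      simp [E]
    · refine Submodule.mem_iSup_of_mem 0 ?_
      rw [mem_U]
      simp [E]
    · refine Submodule.mem_iSup_of_mem 3 ?_
      rw [mem_U]
      simp [E]
    · refine Submodule.mem_iSup_of_mem 5 ?_
      rw [mem_U]
      simp [E]
  intro x _
  have hx : x = ∑ i, x i • (Pi.single i 1 : Fin 5 → k) := by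
    funext j
    simp [Finset.sum_apply, Pi.single_apply]
  rw [hx]
  exact Submodule.sum_mem _ (fun i _ => Submodule.smul_mem _ _ (key i))

theorem isGraphCurve (h3 : (3 : k) ≠ 0) (h2 : (2 : k) ≠ 0) : IsGraphCurve G (U (k := k)) where
  line := finrank_U
  meet := by
    intro u v h
    have key : ∀ u v : Fin 6, G.Adj u v → (u, v) ∈ edg ∨ (v, u) ∈ edg := by decide
    rcases key u v h with h1 | h1
    · exact meet_one h2 u v h1
    · rw [inf_comm]
      exact meet_one h2 v u h1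
  disj := disj h3 h2
  noTriple := noTriple h3 h2
  span := span_top

end Pool.Agent.V1149.GB.Ex
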