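import Pool.Agent.V1149.GB.Ex2

/-!
# The Betti number `b_{1,3}` of the counterexample is at least two
-/

namespace Pool.Agent.V1149.GB.Ex

open MvPolynomial Pool.Agent.V1149.GB

variable {k : Type*} [Field k]

theorem kos_apply {N : ℕ} (I : Ideal (MvPolynomial (Fin N) k))
    (f : Finset (Fin N) → MvPolynomial (Fin N) k ⧸ I) (T : Finset (Fin N)) :
    kos I f T = ∑ a ∈ Tᶜ, (-1) ^ (T.filter (· < a)).card *
      (Ideal.Quotient.mk I (X a) * f (insert a T)) := rfl

theorem mem_kosPart {N : ℕ} {I : Ideal (MvPolynomial (Fin N) k)} {i j : ℕ}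
    {f : Finset (Fin N) → MvPolynomial (Fin N) k ⧸ I} :
    f ∈ kosPart I i j ↔ ∀ T, f T ∈ if T.card = i ∧ i ≤ j then grade I (j - i) else ⊥ := by
  simp [kosPart, Submodule.mem_pi]

theorem mem_grade {N : ℕ} {I : Ideal (MvPolynomial (Fin N) k)} {m : ℕ}
    {y : MvPolynomial (Fin N) k ⧸ I} :
    y ∈ grade I m ↔ ∃ F : MvPolynomial (Fin N) k, F.IsHomogeneous m ∧
      Ideal.Quotient.mk I F = y := by
  simp [grade, Submodule.mem_map, mem_homogeneousSubmodule]

theorem mem_kosPart' {N : ℕ} {I : Ideal (MvPolynomial (Fin N) k)} {i j : ℕ} (hij : i ≤ j)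
    {f : Finset (Fin N) → MvPolynomial (Fin N) k ⧸ I} :
    f ∈ kosPart I i j ↔ (∀ T, T.card = i → ∃ F : MvPolynomial (Fin N) k,
      F.IsHomogeneous (j - i) ∧ Ideal.Quotient.mk I F = f T) ∧ ∀ T, T.card ≠ i → f T = 0 := by
  rw [mem_kosPart]
  constructor
  · intro h
    refine ⟨fun T hT => ?_, fun T hT => ?_⟩
    · have := h T
      rw [if_pos ⟨hT, hij⟩] at this
      exact mem_grade.1 this
    · have := h T
      rw [if_neg (fun h => hT h.1)] at this
      exact this
  · rintro ⟨h1, h2⟩ T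
    split_ifs with h
    · exact mem_grade.2 (h1 T h.1)
    · by_cases hT : T.card = i
      · exact absurd ⟨hT, hij⟩ h
      · exact h2 T hT

/-- the value of a homogeneous polynomial of degree one -/
theorem eval_linear {N : ℕ} {F : MvPolynomial (Fin N) k} (hF : F.IsHomogeneous 1) :
    ∃ L : Fin N → k, ∀ x : Fin N → k, eval x F = ∑ c, L c * x c := by
  have h : F ∈ homogeneousSubmodule (Fin N) k 1 := (mem_homogeneousSubmodule _ _).2 hF
  rw [homogeneousSubmodule_one_eq_span_X, Submodule.mem_span_range_iff_exists_fun] at h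
  obtain ⟨c, rfl⟩ := h
  refine ⟨c, fun x => ?_⟩
  rw [map_sum]
  refine Finset.sum_congr rfl (fun i _ => ?_)
  rw [smul_eval, eval_X]

/-- first cycle, as polynomials -/
noncomputable def F1 (T : Finset (Fin 5)) : MvPolynomial (Fin 5) k :=
  if T = {0} then X 1 * X 2 else if T = {1} then X 1 * X 2 + X 2 * X 2 else 0

/-- second cycle, as polynomials -/
noncomputable def F2 (T : Finset (Fin 5)) : MvPolynomial (Fin 5) k :=
  if T = {3} then X 1 * X 2 else 0

theorem hom_XX (i j : Fin 5) : (X i * X j : MvPolynomial (Fin 5) k).IsHomogeneous 2 :=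
  (isHomogeneous_X k i).mul (isHomogeneous_X k j)

theorem F1_hom (T : Finset (Fin 5)) : (F1 (k := k) T).IsHomogeneous 2 := by
  unfold F1
  split_ifs
  · exact hom_XX _ _
  · exact (hom_XX _ _).add (hom_XX _ _)
  · exact isHomogeneous_zero _ _ _

theorem F2_hom (T : Finset (Fin 5)) : (F2 (k := k) T).IsHomogeneous 2 := by
  unfold F2
  split_ifs
  · exact hom_XX _ _
  · exact isHomogeneous_zero _ _ _

/-- the ideal -/
noncomputable abbrev I : Ideal (MvPolynomial (Fin 5) k) := vanIdeal (U (k := k))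

theorem kos_one {N : ℕ} (J : Ideal (MvPolynomial (Fin N) k))
    (f : Finset (Fin N) → MvPolynomial (Fin N) k ⧸ J) (hf : ∀ T, T.card ≠ 1 → f T = 0)
    (h : ∑ a, Ideal.Quotient.mk J (X a) * f {a} = 0) : kos J f = 0 := by
  funext T
  rw [kos_apply]
  by_cases hT : T = ∅
  · subst hT
    simpa using h
  · refine Finset.sum_eq_zero (fun a ha => ?_)
    rw [hf (insert a T), mul_zero, mul_zero]
    rw [Finset.mem_compl] at ha
    rw [Finset.card_insert_of_notMem ha]
    have := Finset.card_pos.2 (Finset.nonempty_iff_ne_empty.2 hT)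
    omega

theorem F1_card (T : Finset (Fin 5)) (hT : T.card ≠ 1) : F1 (k := k) T = 0 := by
  unfold F1
  rw [if_neg, if_neg]
  · rintro rfl
    exact hT rfl
  · rintro rfl
    exact hT rfl

theorem F2_card (T : Finset (Fin 5)) (hT : T.card ≠ 1) : F2 (k := k) T = 0 := by
  unfold F2
  rw [if_neg]
  rintro rfl
  exact hT rfl

theorem Z1_mem : (fun T => Ideal.Quotient.mk (I (k := k)) (F1 T)) ∈
    cyc (I (k := k)) 1 3 := by
  refine ⟨?_, ?_⟩
  · rw [SetLike.mem_coe, mem_kosPart' (by norm_num)]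
    refine ⟨fun T _ => ⟨F1 T, F1_hom T, rfl⟩, fun T hT => ?_⟩
    simp only [F1_card T hT, map_zero]
  · rw [SetLike.mem_coe, LinearMap.mem_ker]
    refine kos_one _ _ (fun T hT => by simp only [F1_card T hT, map_zero]) ?_
    simp only [← map_mul, ← map_sum]
    rw [Ideal.Quotient.eq_zero_iff_mem]
    intro v x hx
    rw [mem_U] at hx
    simp only [Fin.sum_univ_five, F1]
    simp
    fin_cases v <;> simp only [E] at hx <;> obtain ⟨h1, h2, h3⟩ := hx <;> grind

theorem Z2_mem : (fun T => Ideal.Quotient.mk (I (k := k)) (F2 T)) ∈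
    cyc (I (k := k)) 1 3 := by
  refine ⟨?_, ?_⟩
  · rw [SetLike.mem_coe, mem_kosPart' (by norm_num)]
    refine ⟨fun T _ => ⟨F2 T, F2_hom T, rfl⟩, fun T hT => ?_⟩
    simp only [F2_card T hT, map_zero]
  · rw [SetLike.mem_coe, LinearMap.mem_ker]
    refine kos_one _ _ (fun T hT => by simp only [F2_card T hT, map_zero]) ?_
    simp only [← map_mul, ← map_sum]
    rw [Ideal.Quotient.eq_zero_iff_mem]
    intro v x hx
    rw [mem_U] at hx
    simp only [Fin.sum_univ_five, F2]
    simp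
    fin_cases v <;> simp only [E] at hx <;> obtain ⟨h1, h2, h3⟩ := hx <;> grind

theorem mem_I {F : MvPolynomial (Fin 5) k} : F ∈ I (k := k) ↔ ∀ v, ∀ x, E v x → eval x F = 0 := by
  constructor
  · intro h v x hx
    exact h v x ((mem_U v x).2 hx)
  · intro h v x hx
    exact h v x ((mem_U v x).1 hx)

theorem main {s t : k}
    (h : s • (fun T => Ideal.Quotient.mk (I (k := k)) (F1 T)) +
      t • (fun T => Ideal.Quotient.mk (I (k := k)) (F2 T)) ∈
      bdr (I (k := k)) 1 3) : s = 0 ∧ t = 0 := by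
  obtain ⟨g, hg, he⟩ := h
  rw [SetLike.mem_coe, mem_kosPart' (by norm_num)] at hg
  have hL : ∀ T : Finset (Fin 5), T.card = 2 → ∃ L : Fin 5 → k, ∃ F : MvPolynomial (Fin 5) k,
      Ideal.Quotient.mk I F = g T ∧ ∀ x : Fin 5 → k, eval x F = ∑ c, L c * x c := by
    intro T hT
    obtain ⟨F, hF, hF'⟩ := hg.1 T hT
    obtain ⟨L, hL⟩ := eval_linear hF
    exact ⟨L, F, hF', hL⟩
  choose! L F hF hL using hL
  have eqn : ∀ a : Fin 5, ∀ v, ∀ x, E v x →
      s * eval x (F1 (k := k) {a}) + t * eval x (F2 {a}) =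
        ∑ b ∈ ({a} : Finset (Fin 5))ᶜ, (-1) ^ (({a} : Finset (Fin 5)).filter (· < b)).card *
          (x b * ∑ c, L (insert b {a}) c * x c) := by
    intro a v x hx
    have h1 := congrFun he {a}
    rw [kos_apply] at h1
    have h2 : Ideal.Quotient.mk (I (k := k)) (∑ b ∈ ({a} : Finset (Fin 5))ᶜ,
        (-1) ^ (({a} : Finset (Fin 5)).filter (· < b)).card * (X b * F (insert b {a})) -
        (C s * F1 {a} + C t * F2 {a})) = 0 := by
      rw [map_sub, map_sum, map_add]
      simp only [map_mul, map_pow, map_neg, map_one]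
      rw [sub_eq_zero]
      refine Eq.trans ?_ (h1.trans ?_)
      · refine Finset.sum_congr rfl (fun b hb => ?_)
        rw [hF]
        rw [Finset.mem_compl] at hb
        rw [Finset.card_insert_of_notMem hb]
        simp
      · simp only [Pi.add_apply, Pi.smul_apply]
        rw [← map_mul, ← map_mul, ← smul_eq_C_mul, ← smul_eq_C_mul]
        rfl
    rw [Ideal.Quotient.eq_zero_iff_mem, mem_I] at h2
    have h3 := h2 v x hx
    rw [map_sub, map_sum, sub_eq_zero] at h3
    simp only [map_add, map_mul, map_pow, map_neg, map_one, eval_C, eval_X] at h3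
    rw [← h3]
    refine Finset.sum_congr rfl (fun b hb => ?_)
    rw [Finset.mem_compl] at hb
    rw [hL]
    rw [Finset.card_insert_of_notMem hb]
    simp
  have c0 : ({0} : Finset (Fin 5))ᶜ = {1, 2, 3, 4} := by decide
  have c1 : ({1} : Finset (Fin 5))ᶜ = {0, 2, 3, 4} := by decide
  have c2 : ({2} : Finset (Fin 5))ᶜ = {0, 1, 3, 4} := by decide
  have c3 : ({3} : Finset (Fin 5))ᶜ = {0, 1, 2, 4} := by decide
  have e0 := eqn 0
  have e1 := eqn 1
  have e2 := eqn 2
  have e3 := eqn 3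
  rw [c0] at e0
  rw [c1] at e1
  rw [c2] at e2
  rw [c3] at e3
  have q10 : ({1, 0} : Finset (Fin 5)) = {0, 1} := by decide
  have q20 : ({2, 0} : Finset (Fin 5)) = {0, 2} := by decide
  have q21 : ({2, 1} : Finset (Fin 5)) = {1, 2} := by decide
  have q30 : ({3, 0} : Finset (Fin 5)) = {0, 3} := by decide
  have q31 : ({3, 1} : Finset (Fin 5)) = {1, 3} := by decide
  have q32 : ({3, 2} : Finset (Fin 5)) = {2, 3} := by decide
  have P1 : E (k := k) 0 ![1, 0, 0, 0, 0] := by simp [E]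
  have P2 : E (k := k) 1 ![0, 1, 0, 0, 0] := by simp [E]
  have P3 : E (k := k) 0 ![0, 0, 1, 0, 0] := by simp [E]
  have P4 : E (k := k) 3 ![0, 0, 0, 1, 0] := by simp [E]
  have P5 : E (k := k) 1 ![1, 1, 0, 0, 0] := by simp [E]
  have P6 : E (k := k) 0 ![1, 0, 1, 0, 0] := by simp [E]
  have P7 : E (k := k) 2 ![-2, 1, 1, 0, 0] := by
    simp [E]
    ring
  have P8 : E (k := k) 3 ![0, 0, 1, 1, 0] := by simp [E]
  have P9 : E (k := k) 4 ![0, 1, 0, 1, 0] := by simp [E]
  have e01 := e0 _ _ P1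
  have e02 := e0 _ _ P2
  have e03 := e0 _ _ P3
  have e04 := e0 _ _ P4
  have e05 := e0 _ _ P5
  have e06 := e0 _ _ P6
  have e07 := e0 _ _ P7
  simp [F1, F2, Fin.sum_univ_five, Finset.filter_singleton, q10, q20, q30]
    at e01 e02 e03 e04 e05 e06 e07
  have e11 := e1 _ _ P1
  have e12 := e1 _ _ P2
  have e13 := e1 _ _ P3
  have e14 := e1 _ _ P4
  have e15 := e1 _ _ P5
  have e16 := e1 _ _ P6
  have e18 := e1 _ _ P8
  simp [F1, F2, Fin.sum_univ_five, Finset.filter_singleton, q10, q20, q21, q30, q31, q32]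
    at e11 e12 e13 e14 e15 e16 e18
  have e21 := e2 _ _ P1
  have e22 := e2 _ _ P2
  have e24 := e2 _ _ P4
  have e25 := e2 _ _ P5
  have e29 := e2 _ _ P9
  simp [F1, F2, Fin.sum_univ_five, Finset.filter_singleton, q10, q20, q21, q30, q31, q32]
    at e21 e22 e24 e25 e29
  have e31 := e3 _ _ P1
  have e32 := e3 _ _ P2
  have e33 := e3 _ _ P3
  have e35 := e3 _ _ P5
  have e36 := e3 _ _ P6
  have e37 := e3 _ _ P7
  simp [F1, F2, Fin.sum_univ_five, Finset.filter_singleton, q10, q20, q21, q30, q31, q32]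
    at e31 e32 e33 e35 e36 e37
  constructor
  · linear_combination e07 + e16 - e13 + e25 - 3 * e11 - 3 * e21 - e22 - e02 - e03
  · linear_combination e37 + 2 * e35 + 2 * e36 - 8 * e31 - 3 * e32 - 3 * e33 + e18 - e13 - e14 +
      e29 - e22 - e24

theorem no_two {M : Type*} [AddCommGroup M] [Module k M] (h : Module.finrank k M = 1) (a b : M)
    (hab : ∀ s t : k, s • a + t • b = 0 → s = 0 ∧ t = 0) : False := by
  have hfin : Module.Finite k M := Module.finite_of_finrank_pos (by rw [h]; norm_num)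
  have hli : LinearIndependent k ![a, b] := by
    rw [LinearIndependent.pair_iff]
    exact hab
  have := hli.fintype_card_le_finrank
  rw [h] at this
  simp at this

theorem betti_ne_one : betti (I (k := k)) 1 3 ≠ 1 := by
  intro h
  rw [betti] at h
  refine no_two h (Submodule.Quotient.mk ⟨_, Z1_mem⟩) (Submodule.Quotient.mk ⟨_, Z2_mem⟩) ?_
  intro s t hst
  rw [← Submodule.Quotient.mk_smul, ← Submodule.Quotient.mk_smul, ← Submodule.Quotient.mk_add,
    Submodule.Quotient.mk_eq_zero] at hst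
  exact main hst

end Pool.Agent.V1149.GB.Ex
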