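import Pool.Agent.V1149.GB.Core
import Pool.Agent.V1149.GB.Defs

/-!
# Translation of the hypotheses
-/

namespace Pool.Agent.V1149.GB

open Relation

set_option linter.unusedSectionVars false

open scoped Classical

section Hyp

variable {V : Type*} [Fintype V] [DecidableEq V] {G : SimpleGraph V}

theorem degK_le (hdeg : ∀ v, Nat.card (G.neighborSet v) ≤ 3) (K : Finset V) (a : V) :
    degK G K a ≤ 3 := by
  refine le_trans ?_ (hdeg a)
  rw [Nat.card_eq_fintype_card, ← Set.toFinset_card]
  refine Finset.card_le_card ?_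
  intro b hb
  rw [Finset.mem_filter] at hb
  simpa using hb.2

theorem conn_univ (hG : G.Connected) : Conn G Finset.univ := by
  intro a _ b _
  have h := (SimpleGraph.reachable_iff_reflTransGen a b).1 (hG.preconnected a b)
  exact ReflTransGen.mono (fun x y h => ⟨Finset.mem_univ _, Finset.mem_univ _, h⟩) _ _ h

/-- the induced subgraph -/
def indS (G : SimpleGraph V) (S : Finset V) : G.Subgraph := (⊤ : G.Subgraph).induce (S : Set V)

theorem indS_conn {S : Finset V} (hS : S.Nonempty) (hc : Conn G S) : (indS G S).Connected := by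
  rw [SimpleGraph.Subgraph.connected_iff]
  refine ⟨⟨fun a b => ?_⟩, ?_⟩
  · obtain ⟨a, ha⟩ := a
    obtain ⟨b, hb⟩ := b
    have ha' : a ∈ S := by simpa [indS] using ha
    have hb' : b ∈ S := by simpa [indS] using hb
    have key : ∀ c, ReflTransGen (inK G S) a c → ∀ hc : c ∈ (indS G S).verts,
        (indS G S).coe.Reachable ⟨a, ha⟩ ⟨c, hc⟩ := by
      intro c h
      induction h with
      | refl => intro _; exact SimpleGraph.Reachable.refl _
      | @tail c d _ hcd ih =>
        intro hd
        have hc : c ∈ (indS G S).verts := by simpa [indS] using hcd.1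
        refine (ih hc).trans (SimpleGraph.Adj.reachable ?_)
        rw [SimpleGraph.Subgraph.coe_adj]
        exact ⟨hc, hd, hcd.2.2⟩
    exact key b (hc a ha' b hb') hb
  · obtain ⟨a, ha⟩ := hS
    exact ⟨a, by simpa [indS] using ha⟩

theorem indS_card (S : Finset V) : Nat.card (indS G S).verts = S.card := by
  have : (indS G S).verts = (S : Set V) := rfl
  rw [this]
  simp

theorem coe_degree (S : Finset V) (a : (indS G S).verts)
    (inst : Fintype ((indS G S).coe.neighborSet a)) :
    (indS G S).coe.degree a = degK G S a.1 := by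
  rw [degK, ← SimpleGraph.card_neighborFinset_eq_degree]
  refine Finset.card_bij (fun b _ => b.1) ?_ ?_ ?_
  · intro b hb
    rw [SimpleGraph.mem_neighborFinset] at hb
    have hb' : (indS G S).Adj a.1 b.1 := hb
    rw [Finset.mem_filter]
    exact ⟨by simpa [indS] using hb'.2.1, hb'.2.2⟩
  · intro b _ b' _ h
    exact Subtype.ext h
  · intro b hb
    rw [Finset.mem_filter] at hb
    refine ⟨⟨b, by simpa [indS] using hb.1⟩, ?_, rfl⟩
    rw [SimpleGraph.mem_neighborFinset]
    exact ⟨a.2, by simp [hb.1], hb.2⟩

theorem sum_verts (S : Finset V) :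
    ∑ a ∈ S, degK G S a = ∑ a : (indS G S).verts, degK G S a.1 := by
  symm
  refine Finset.sum_bij (fun a _ => a.1) ?_ ?_ ?_ ?_
  · intro a _
    have := a.2
    simpa [indS] using this
  · intro a _ b _ h
    exact Subtype.ext h
  · intro b hb
    exact ⟨⟨b, by simpa [indS] using hb⟩, Finset.mem_univ _, rfl⟩
  · intro a _
    rfl

theorem indS_deg (S : Finset V) :
    ∑ a ∈ S, degK G S a = 2 * Nat.card (indS G S).coe.edgeSet := by
  have h1 := SimpleGraph.sum_degrees_eq_twice_card_edges (indS G S).coe
  rw [Nat.card_eq_fintype_card, ← SimpleGraph.edgeFinset_card, ← h1, sum_verts]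
  refine Finset.sum_congr rfl (fun a _ => ?_)
  exact (coe_degree S a _).symm

theorem A3 (hsub : SubgraphCond G) (S : Finset V) (hS : S.Nonempty) (hc : Conn G S) :
    ∑ a ∈ S, degK G S a + 3 ≤ 3 * S.card := by
  have h := hsub (indS G S) (indS_conn hS hc)
  rw [genus] at h
  have h1 := indS_deg (G := G) S
  have h2 := indS_card (G := G) S
  rw [h2] at h
  omega

theorem exists_def (hG : G.Connected) (hsub : SubgraphCond G) :
    ∃ z, degK G Finset.univ z ≤ 2 := by
  have hne : (Finset.univ : Finset V).Nonempty := by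
    obtain ⟨v⟩ := hG.nonempty
    exact ⟨v, Finset.mem_univ _⟩
  by_contra hcon
  push Not at hcon
  have h1 := A3 hsub Finset.univ hne (conn_univ hG)
  have h2 : (Finset.univ : Finset V).card * 3 ≤ ∑ a ∈ (Finset.univ : Finset V), degK G Finset.univ a := by
    rw [← smul_eq_mul, ← Finset.sum_const]
    exact Finset.sum_le_sum (fun a _ => hcon a)
  omega

theorem two_mul_edges : ∑ a, degK G Finset.univ a = 2 * Nat.card G.edgeSet := by
  rw [Nat.card_eq_fintype_card, ← SimpleGraph.edgeFinset_card,
    ← SimpleGraph.sum_degrees_eq_twice_card_edges]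
  refine Finset.sum_congr rfl (fun a _ => ?_)
  rw [degK, ← SimpleGraph.card_neighborFinset_eq_degree]
  congr 1
  ext b
  simp

theorem numbers (hG : G.Connected) (hsub : SubgraphCond G) {n : ℕ}
    (hn : (n : ℤ) = (Nat.card V : ℤ) - genus G) :
    n + 1 + Nat.card G.edgeSet = 2 * Fintype.card V ∧ 1 ≤ n := by
  have hne : (Finset.univ : Finset V).Nonempty := by
    obtain ⟨v⟩ := hG.nonempty
    exact ⟨v, Finset.mem_univ _⟩
  have h1 := A3 hsub Finset.univ hne (conn_univ hG)
  rw [two_mul_edges, Finset.card_univ] at h1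
  rw [genus, Nat.card_eq_fintype_card (α := V)] at hn
  constructor
  · omega
  · omega

theorem rtg_iff (K : Finset V) (x y a b : V) (hK : K = Finset.univ) :
    ReflTransGen (inKm G K x y) a b ↔ (G.deleteEdges {s(x, y)}).Reachable a b := by
  subst hK
  rw [SimpleGraph.reachable_iff_reflTransGen]
  have : inKm G Finset.univ x y = (G.deleteEdges {s(x, y)}).Adj := by
    funext a b
    rw [SimpleGraph.deleteEdges_adj, inKm, inK]
    simp only [Finset.mem_univ, true_and, Set.mem_singleton_iff, Sym2.eq_iff, not_or]
  rw [this]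

theorem conn_of_reach (hG : G.Connected) {x y : V}
    (h : (G.deleteEdges {s(x, y)}).Reachable x y) : (G.deleteEdges {s(x, y)}).Connected := by
  have hpre : (G.deleteEdges {s(x, y)}).Preconnected := by
    intro a b
    have h1 := (SimpleGraph.reachable_iff_reflTransGen a b).1 (hG.preconnected a b)
    induction h1 with
    | refl => exact SimpleGraph.Reachable.refl _
    | @tail b c _ hbc ih =>
      refine ih.trans ?_
      by_cases he : s(b, c) = s(x, y)
      · rw [Sym2.eq_iff] at he
        rcases he with ⟨rfl, rfl⟩ | ⟨rfl, rfl⟩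
        · exact h
        · exact h.symm
      · refine SimpleGraph.Adj.reachable ?_
        rw [SimpleGraph.deleteEdges_adj]
        exact ⟨hbc, by simpa using he⟩
  have := hG.nonempty
  exact ⟨hpre⟩

end Hyp

end Pool.Agent.V1149.GB
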