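import Pool.Agent.V1149.GB.Bet
import Pool.Agent.V1149.GB.Hyp

/-!
# The Betti number `b_{n-1,n}` of a graph curve is the number of bridges
-/

namespace Pool.Agent.V1149.GB

open MvPolynomial Relation

set_option linter.unusedSectionVars false

open scoped Classical

section Aux

variable {V : Type*} {k : Type*} [Field k] {N : ℕ}

theorem par {p δ : Fin N → k} (h : ∀ a b, p a * δ b = p b * δ a) {i : Fin N} (hi : p i ≠ 0) :
    δ = (δ i / p i) • p := by
  funext b
  rw [Pi.smul_apply, smul_eq_mul, div_mul_eq_mul_div, eq_div_iff hi]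
  linear_combination h i b

theorem exists_sorted2 {S : Finset (Fin N)} (h : S.card = 2) :
    ∃ a b, a < b ∧ S = {a, b} := by
  obtain ⟨a, b, hab, rfl⟩ := Finset.card_eq_two.1 h
  rcases lt_or_gt_of_ne hab with h1 | h1
  · exact ⟨a, b, h1, rfl⟩
  · exact ⟨b, a, h1, Finset.pair_comm a b⟩

theorem exists_sorted3 {S : Finset (Fin N)} (h : S.card = 3) :
    ∃ a b c, a < b ∧ b < c ∧ S = {a, b, c} := by
  refine ⟨S.orderEmbOfFin h 0, S.orderEmbOfFin h 1, S.orderEmbOfFin h 2, ?_, ?_, ?_⟩
  · exact (S.orderEmbOfFin h).strictMono (by decide)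
  · exact (S.orderEmbOfFin h).strictMono (by decide)
  · ext x
    have h1 : x ∈ S ↔ x ∈ Set.range (S.orderEmbOfFin h) := by
      rw [Finset.range_orderEmbOfFin]
      simp
    rw [h1]
    simp only [Set.mem_range, Finset.mem_insert, Finset.mem_singleton]
    constructor
    · rintro ⟨i, rfl⟩
      fin_cases i
      · exact Or.inl rfl
      · exact Or.inr (Or.inl rfl)
      · exact Or.inr (Or.inr rfl)
    · rintro (rfl | rfl | rfl)
      · exact ⟨0, rfl⟩
      · exact ⟨1, rfl⟩
      · exact ⟨2, rfl⟩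

theorem mem_kosP {I : Ideal (MvPolynomial (Fin N) k)} {i j : ℕ}
    {f : Finset (Fin N) → MvPolynomial (Fin N) k ⧸ I} :
    f ∈ kosPart I i j ↔ ∀ T, f T ∈ if T.card = i ∧ i ≤ j then grade I (j - i) else ⊥ := by
  simp [kosPart, Submodule.mem_pi]

theorem negone_mem {R : Type*} [Ring R] (m : ℕ) (r : R) : (-1) ^ m * r = r ∨ (-1) ^ m * r = - r := by
  rcases neg_one_pow_eq_or R m with h | h
  · left; rw [h, one_mul]
  · right; rw [h, neg_one_mul]

theorem hat_grade {n : ℕ} {I : Ideal (MvPolynomial (Fin (n + 1)) k)} (hn : 1 ≤ n)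
    {f : Finset (Fin (n + 1)) → MvPolynomial (Fin (n + 1)) k ⧸ I} (hf : f ∈ kosPart I (n - 1) n)
    (S : Finset (Fin (n + 1))) (hS : S.card = 2) : hat f S ∈ grade I 1 := by
  have h1 : Sᶜ.card = n - 1 := by
    rw [Finset.card_compl, Fintype.card_fin, hS]
    omega
  have h2 : f Sᶜ ∈ grade I 1 := by
    have := mem_kosP.1 hf Sᶜ
    rw [if_pos ⟨h1, Nat.sub_le _ _⟩] at this
    rw [show n - (n - 1) = 1 by omega] at this
    exact this
  rcases negone_mem (∑ s ∈ S, s.val) (f Sᶜ) with h3 | h3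
  · rw [hat, h3]
    exact h2
  · rw [hat, h3]
    exact Submodule.neg_mem _ h2

theorem hat_supp {n : ℕ} {I : Ideal (MvPolynomial (Fin (n + 1)) k)} (hn : 1 ≤ n)
    {f : Finset (Fin (n + 1)) → MvPolynomial (Fin (n + 1)) k ⧸ I} (hf : f ∈ kosPart I (n - 1) n)
    (S : Finset (Fin (n + 1))) (hS : S.card ≠ 2) : hat f S = 0 := by
  have h1 : Sᶜ.card ≠ n - 1 := by
    rw [Finset.card_compl, Fintype.card_fin]
    have := Finset.card_le_univ S
    rw [Fintype.card_fin] at this
    omega
  have h2 : f Sᶜ = 0 := by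
    have := mem_kosP.1 hf Sᶜ
    rw [if_neg (fun h => h1 h.1)] at this
    exact this
  rw [hat, h2, mul_zero]

theorem hat_zero {I : Ideal (MvPolynomial (Fin N) k)} (S : Finset (Fin N)) :
    hat (0 : Finset (Fin N) → MvPolynomial (Fin N) k ⧸ I) S = 0 := by
  simp [hat]

/-- the Koszul differential of a function supported on the pairs (after reindexing) -/
theorem kos_zero_of_pairs {U : V → Submodule k (Fin N → k)}
    (f : Finset (Fin N) → MvPolynomial (Fin N) k ⧸ vanIdeal U)
    (hf : ∀ S : Finset (Fin N), S.card ≠ 2 → hat f S = 0) (w : V → Fin N → k)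
    (hw : ∀ v, ∀ y ∈ U v, ∀ a b, a < b →
      evR (vanIdeal U) y (hat f {a, b}) = y a * w v b - y b * w v a) :
    kos (vanIdeal U) f = 0 := by
  apply hat_inj
  intro S
  rw [hat_zero]
  by_cases hS : S.card = 3
  · obtain ⟨a, b, c, hab, hbc, rfl⟩ := exists_sorted3 hS
    rw [hat_kos_three _ _ hab hbc]
    apply eq_zero_of_evR
    intro v y hy
    rw [map_add, map_sub, evR_mul hy, evR_mul hy, evR_mul hy, hw v y hy b c hbc,
      hw v y hy a c (hab.trans hbc), hw v y hy a b hab]
    simp only [eval_X]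
    ring
  · rw [hat_kos]
    refine Finset.sum_eq_zero (fun a ha => ?_)
    rw [hf, mul_zero, mul_zero]
    rw [Finset.card_erase_of_mem ha]
    omega

/-- the alternating form of a function whose values on pairs are known -/
theorem zt_of_pairs {I : Ideal (MvPolynomial (Fin N) k)}
    (f : Finset (Fin N) → MvPolynomial (Fin N) k ⧸ I) (w y : Fin N → k)
    (hw : ∀ a b, a < b → evR I y (hat f {a, b}) = y a * w b - y b * w a) (a b : Fin N) :
    zt I f y a b = y a * w b - y b * w a := by
  unfold zt F2v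
  rcases lt_trichotomy a b with h | h | h
  · rw [if_pos h]
    exact hw a b h
  · subst h
    simp
  · rw [if_neg h.not_gt, if_pos h, Finset.pair_comm, hw b a h]
    ring

end Aux

end Pool.Agent.V1149.GB
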