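import Pool.Agent.V1149.GB.Curve

/-!
# The Koszul cycles of homological degree `n - 1`
-/

namespace Pool.Agent.V1149.GB

open MvPolynomial

set_option linter.unusedSectionVars false

section Lin

variable {k : Type*} [Field k] {N : ℕ}

/-- a reduced basis of a two-dimensional subspace -/
structure RB (Um : Submodule k (Fin N → k)) (i j : Fin N) (P Q : Fin N → k) : Prop where
  hP : P ∈ Um
  hQ : Q ∈ Um
  Pi : P i = 1
  Pj : P j = 0
  Qi : Q i = 0
  Qj : Q j = 1
  span : ∀ y ∈ Um, y = y i • P + y j • Q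

theorem exists_RB (Um : Submodule k (Fin N → k)) (h : Module.finrank k Um = 2) :
    ∃ i j P Q, RB Um i j P Q := by
  have hne : Um ≠ ⊥ := by
    rintro rfl
    simp at h
  obtain ⟨y0, hy0, hy0'⟩ := (Submodule.ne_bot_iff Um).1 hne
  obtain ⟨i, hi⟩ := Function.ne_iff.1 hy0'
  rw [Pi.zero_apply] at hi
  have hq : ∃ q ∈ Um, q i = 0 ∧ q ≠ 0 := by
    by_contra hcon
    push Not at hcon
    have hinj : Function.Injective ((LinearMap.proj i : (Fin N → k) →ₗ[k] k) ∘ₗ Um.subtype) := by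
      rw [injective_iff_map_eq_zero]
      intro y hy
      exact Subtype.ext (hcon y.1 y.2 hy)
    have := LinearMap.finrank_le_finrank_of_injective hinj
    rw [h, Module.finrank_self] at this
    omega
  obtain ⟨q, hqU, hqi, hq0⟩ := hq
  obtain ⟨j, hj⟩ := Function.ne_iff.1 hq0
  rw [Pi.zero_apply] at hj
  set Q : Fin N → k := (q j)⁻¹ • q with hQ
  set P : Fin N → k := (y0 i)⁻¹ • y0 - ((y0 i)⁻¹ * y0 j) • Q with hP
  have hQU : Q ∈ Um := Submodule.smul_mem _ _ hqU
  have hPU : P ∈ Um := Submodule.sub_mem _ (Submodule.smul_mem _ _ hy0) (Submodule.smul_mem _ _ hQU)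
  have hQi : Q i = 0 := by simp [hQ, hqi]
  have hQj : Q j = 1 := by simp [hQ, hj]
  have hPi : P i = 1 := by simp [hP, hQi, hi]
  have hPj : P j = 0 := by simp [hP, hQj]
  refine ⟨i, j, P, Q, hPU, hQU, hPi, hPj, hQi, hQj, fun y hy => ?_⟩
  by_contra hcon
  set y' : Fin N → k := y - (y i • P + y j • Q) with hy'
  have hy'U : y' ∈ Um := Submodule.sub_mem _ hy (Submodule.add_mem _ (Submodule.smul_mem _ _ hPU)
    (Submodule.smul_mem _ _ hQU))
  have hy'0 : y' ≠ 0 := fun h => hcon (sub_eq_zero.1 h)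
  have hy'i : y' i = 0 := by simp [hy', hPi, hQi]
  have hy'j : y' j = 0 := by simp [hy', hPj, hQj]
  have hli : LinearIndependent k ![(⟨P, hPU⟩ : Um), ⟨Q, hQU⟩, ⟨y', hy'U⟩] := by
    rw [Fintype.linearIndependent_iff]
    intro g hg
    rw [Fin.sum_univ_three] at hg
    have hg' : g 0 • P + g 1 • Q + g 2 • y' = 0 := congrArg Subtype.val hg
    have h0 : g 0 = 0 := by
      have := congrFun hg' i
      simpa [hPi, hQi, hy'i] using this
    have h1 : g 1 = 0 := by
      have := congrFun hg' j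
      simpa [hPj, hQj, hy'j] using this
    have h2 : g 2 = 0 := by
      rw [h0, h1, zero_smul, zero_smul, zero_add, zero_add] at hg'
      exact (smul_eq_zero.1 hg').resolve_right hy'0
    intro l
    fin_cases l
    · exact h0
    · exact h1
    · exact h2
  have := hli.fintype_card_le_finrank
  rw [h] at this
  simp at this

/-- the vector given by an alternating form on a line -/
def wv (ζ : (Fin N → k) → Fin N → Fin N → k) (i j : Fin N) (P Q : Fin N → k) : Fin N → k :=
  fun b => ζ P i b - P b * ζ Q i j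

theorem wv_spec {Um : Submodule k (Fin N → k)} {i j : Fin N} {P Q : Fin N → k}
    (hR : RB Um i j P Q) (ζ : (Fin N → k) → Fin N → Fin N → k)
    (hadd : ∀ y ∈ Um, ∀ y' ∈ Um, ∀ a b, ζ (y + y') a b = ζ y a b + ζ y' a b)
    (hsmul : ∀ (c : k), ∀ y ∈ Um, ∀ a b, ζ (c • y) a b = c * ζ y a b)
    (hD : ∀ y ∈ Um, ∀ a b c, y a * ζ y b c - y b * ζ y a c + y c * ζ y a b = 0) :
    ∀ y ∈ Um, ∀ a b, ζ y a b = y a * wv ζ i j P Q b - y b * wv ζ i j P Q a := by
  have hw : ∀ b, wv ζ i j P Q b = ζ P i b - P b * ζ Q i j := fun _ => rfl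
  have h1 : ∀ a b, ζ P a b = P a * wv ζ i j P Q b - P b * wv ζ i j P Q a := by
    intro a b
    have := hD P hR.hP i a b
    rw [hw, hw]
    rw [hR.Pi] at this
    linear_combination this
  have h2 : ∀ a b, ζ Q a b = Q a * wv ζ i j P Q b - Q b * wv ζ i j P Q a := by
    intro a b
    have h3 : ∀ b, wv ζ i j P Q b = ζ Q j b + Q b * ζ P i j := by
      intro b
      have e1 := hD (P + Q) (Submodule.add_mem _ hR.hP hR.hQ) i j b
      have e2 := hD P hR.hP i j b
      have e3 := hD Q hR.hQ i j b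
      rw [hadd P hR.hP Q hR.hQ, hadd P hR.hP Q hR.hQ, hadd P hR.hP Q hR.hQ] at e1
      simp only [Pi.add_apply, hR.Pi, hR.Pj, hR.Qi, hR.Qj] at e1 e2 e3
      rw [hw]
      linear_combination - e1 + e2 + e3
    have := hD Q hR.hQ j a b
    rw [hR.Qj] at this
    rw [h3, h3]
    linear_combination this
  intro y hy a b
  rw [hR.span y hy]
  rw [hadd _ (Submodule.smul_mem _ _ hR.hP) _ (Submodule.smul_mem _ _ hR.hQ),
    hsmul _ _ hR.hP, hsmul _ _ hR.hQ, h1, h2]
  simp only [Pi.add_apply, Pi.smul_apply, smul_eq_mul]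
  ring

theorem wv_unique {Um : Submodule k (Fin N → k)} {i j : Fin N} {P Q : Fin N → k}
    (hR : RB Um i j P Q) (w w' : Fin N → k)
    (h : ∀ y ∈ Um, ∀ a b, y a * w b - y b * w a = y a * w' b - y b * w' a) : w = w' := by
  have e1 : w j = w' j := by
    have := h P hR.hP i j
    rw [hR.Pi, hR.Pj] at this
    linear_combination this
  have e2 : w i = w' i := by
    have := h Q hR.hQ i j
    rw [hR.Qi, hR.Qj] at this
    linear_combination - this
  funext b
  have := h P hR.hP i b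
  rw [hR.Pi, e2] at this
  linear_combination this

end Lin

section Kos

variable {V : Type*} {k : Type*} [Field k] {N : ℕ}

open scoped Classical in
/-- evaluation of an element of `S / I` at a point of the zero set of `I` -/
noncomputable def evR (I : Ideal (MvPolynomial (Fin N) k)) (y : Fin N → k) :
    (MvPolynomial (Fin N) k ⧸ I) →ₗ[k] k :=
  if h : ∀ F ∈ I, aeval y F = (0 : k) then (Ideal.Quotient.liftₐ I (aeval y) h).toLinearMap else 0

theorem aeval_zero {U : V → Submodule k (Fin N → k)} {v : V} {y : Fin N → k} (hy : y ∈ U v) :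
    ∀ F ∈ vanIdeal U, aeval y F = (0 : k) := by
  intro F hF
  have := hF v y hy
  rw [← this]
  rfl

theorem evR_mk {U : V → Submodule k (Fin N → k)} {v : V} {y : Fin N → k} (hy : y ∈ U v)
    (F : MvPolynomial (Fin N) k) :
    evR (vanIdeal U) y (Ideal.Quotient.mk _ F) = eval y F := by
  rw [evR, dif_pos (aeval_zero hy)]
  change Ideal.Quotient.liftₐ (vanIdeal U) (aeval y) (aeval_zero hy)
    (Ideal.Quotient.mk _ F) = eval y F
  rw [Ideal.Quotient.liftₐ_apply, Ideal.Quotient.lift_mk]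
  rfl

theorem evR_mul {U : V → Submodule k (Fin N → k)} {v : V} {y : Fin N → k} (hy : y ∈ U v)
    (F : MvPolynomial (Fin N) k) (r : MvPolynomial (Fin N) k ⧸ vanIdeal U) :
    evR (vanIdeal U) y (Ideal.Quotient.mk _ F * r) = eval y F * evR (vanIdeal U) y r := by
  obtain ⟨H, rfl⟩ := Ideal.Quotient.mk_surjective r
  rw [← map_mul, evR_mk hy, evR_mk hy, map_mul]

theorem evR_negone {U : V → Submodule k (Fin N → k)} {v : V} {y : Fin N → k} (hy : y ∈ U v)
    (m : ℕ) (r : MvPolynomial (Fin N) k ⧸ vanIdeal U) :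
    evR (vanIdeal U) y ((-1) ^ m * r) = (-1) ^ m * evR (vanIdeal U) y r := by
  have := evR_mul hy ((-1) ^ m) r
  rw [map_pow, map_neg, map_one, map_pow, map_neg, map_one] at this
  exact this

theorem eq_zero_of_evR {U : V → Submodule k (Fin N → k)} (r : MvPolynomial (Fin N) k ⧸ vanIdeal U)
    (h : ∀ v, ∀ y ∈ U v, evR (vanIdeal U) y r = 0) : r = 0 := by
  obtain ⟨H, rfl⟩ := Ideal.Quotient.mk_surjective r
  rw [Ideal.Quotient.eq_zero_iff_mem]
  intro v y hy
  rw [← evR_mk hy]
  exact h v y hy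

theorem mem_grade' {I : Ideal (MvPolynomial (Fin N) k)} {m : ℕ}
    {y : MvPolynomial (Fin N) k ⧸ I} :
    y ∈ grade I m ↔ ∃ F : MvPolynomial (Fin N) k, F.IsHomogeneous m ∧
      Ideal.Quotient.mk I F = y := by
  simp [grade, Submodule.mem_map, mem_homogeneousSubmodule]

/-- the value of a homogeneous polynomial of degree one -/
theorem eval_lin {F : MvPolynomial (Fin N) k} (hF : F.IsHomogeneous 1) :
    ∃ L : Fin N → k, ∀ x : Fin N → k, eval x F = ∑ c, L c * x c := by
  have h : F ∈ homogeneousSubmodule (Fin N) k 1 := (mem_homogeneousSubmodule _ _).2 hF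
  rw [homogeneousSubmodule_one_eq_span_X, Submodule.mem_span_range_iff_exists_fun] at h
  obtain ⟨c, rfl⟩ := h
  refine ⟨c, fun x => ?_⟩
  rw [map_sum]
  refine Finset.sum_congr rfl (fun i _ => ?_)
  rw [smul_eval, eval_X]

theorem evR_add {U : V → Submodule k (Fin N → k)} {v : V} {r : MvPolynomial (Fin N) k ⧸ vanIdeal U}
    (hr : r ∈ grade (vanIdeal U) 1) {y y' : Fin N → k} (hy : y ∈ U v) (hy' : y' ∈ U v) :
    evR (vanIdeal U) (y + y') r = evR (vanIdeal U) y r + evR (vanIdeal U) y' r := by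
  obtain ⟨F, hF, rfl⟩ := mem_grade'.1 hr
  obtain ⟨L, hL⟩ := eval_lin hF
  rw [evR_mk hy, evR_mk hy', evR_mk ((U v).add_mem hy hy'), hL, hL, hL]
  simp [mul_add, Finset.sum_add_distrib]

theorem evR_smul {U : V → Submodule k (Fin N → k)} {v : V} {r : MvPolynomial (Fin N) k ⧸ vanIdeal U}
    (hr : r ∈ grade (vanIdeal U) 1) (c : k) {y : Fin N → k} (hy : y ∈ U v) :
    evR (vanIdeal U) (c • y) r = c * evR (vanIdeal U) y r := by
  obtain ⟨F, hF, rfl⟩ := mem_grade'.1 hr
  obtain ⟨L, hL⟩ := eval_lin hF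
  rw [evR_mk hy, evR_mk ((U v).smul_mem c hy), hL, hL]
  simp only [Pi.smul_apply, smul_eq_mul, Finset.mul_sum]
  refine Finset.sum_congr rfl (fun i _ => ?_)
  ring

/-- reindexing by complements, with signs -/
noncomputable def hat {I : Ideal (MvPolynomial (Fin N) k)}
    (f : Finset (Fin N) → MvPolynomial (Fin N) k ⧸ I) (S : Finset (Fin N)) :
    MvPolynomial (Fin N) k ⧸ I := (-1) ^ (∑ s ∈ S, s.val) * f Sᶜ

theorem kos_apply' (I : Ideal (MvPolynomial (Fin N) k))
    (f : Finset (Fin N) → MvPolynomial (Fin N) k ⧸ I) (T : Finset (Fin N)) :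
    kos I f T = ∑ a ∈ Tᶜ, (-1) ^ (T.filter (· < a)).card *
      (Ideal.Quotient.mk I (X a) * f (insert a T)) := rfl

theorem card_filter_add (S : Finset (Fin N)) (a : Fin N) :
    (Sᶜ.filter (· < a)).card + (S.filter (· < a)).card = a.val := by
  rw [← Finset.card_union_of_disjoint]
  · rw [← Finset.filter_union, Finset.union_comm, Finset.union_compl]
    have : Finset.univ.filter (· < a) = Finset.Iio a := by
      ext x; simp
    rw [this, Fin.card_Iio]
  · exact Finset.disjoint_filter_filter (disjoint_compl_left)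

theorem neg_pow_mul {R : Type*} [CommRing R] (A q s : ℕ) :
    (-1 : R) ^ (A + q + s) * (-1) ^ A = (-1) ^ q * (-1) ^ s := by
  rw [← pow_add, ← pow_add]
  rw [show A + q + s + A = 2 * A + (q + s) by ring]
  rw [pow_add, pow_mul, neg_one_sq, one_pow, one_mul]

theorem neg_pow_sq {R : Type*} [CommRing R] (m : ℕ) : (-1 : R) ^ m * (-1) ^ m = 1 := by
  rw [← pow_add, ← two_mul, pow_mul, neg_one_sq, one_pow]

theorem hat_kos (I : Ideal (MvPolynomial (Fin N) k))
    (f : Finset (Fin N) → MvPolynomial (Fin N) k ⧸ I) (S : Finset (Fin N)) :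
    hat (kos I f) S = ∑ a ∈ S, (-1) ^ (S.filter (· < a)).card *
      (Ideal.Quotient.mk I (X a) * hat f (S.erase a)) := by
  unfold hat
  rw [kos_apply', Finset.mul_sum, compl_compl]
  refine Finset.sum_congr rfl (fun a ha => ?_)
  rw [Finset.compl_erase]
  have h1 : ∑ s ∈ S, s.val = a.val + ∑ s ∈ S.erase a, s.val := (Finset.add_sum_erase S _ ha).symm
  have h2 := card_filter_add S a
  have h3 : ((-1 : MvPolynomial (Fin N) k ⧸ I)) ^ (∑ s ∈ S, s.val) *
      (-1) ^ (Sᶜ.filter (· < a)).card =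
      (-1) ^ (S.filter (· < a)).card * (-1) ^ (∑ s ∈ S.erase a, s.val) := by
    rw [h1, ← h2]
    exact neg_pow_mul _ _ _
  linear_combination (Ideal.Quotient.mk I (X a) * f (insert a Sᶜ)) * h3

theorem hat_inj {I : Ideal (MvPolynomial (Fin N) k)}
    (f g : Finset (Fin N) → MvPolynomial (Fin N) k ⧸ I) (h : ∀ S, hat f S = hat g S) : f = g := by
  funext T
  have h1 := h Tᶜ
  unfold hat at h1
  rw [compl_compl] at h1
  have h2 : ((-1 : MvPolynomial (Fin N) k ⧸ I)) ^ (∑ s ∈ Tᶜ, s.val) *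
      (-1) ^ (∑ s ∈ Tᶜ, s.val) = 1 := neg_pow_sq _
  linear_combination (-1) ^ (∑ s ∈ Tᶜ, s.val) * h1 - (f T - g T) * h2

end Kos

end Pool.Agent.V1149.GB
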